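import Pool.Agent.Run7.h365.CM.Pole
import Pool.Agent.W547.UB.Main

/-!
# The pole for products of abelian varieties of CM type in independent blocks
-/

set_option autoImplicit false
set_option linter.unusedSectionVars false

namespace Run7.h365.CM

open Module NumberField IsDedekindDomain Filter Topology Polynomial
open Pool.Agent.H204R3.CM
open Pool.Agent.W547.KB Pool.Agent.W547.LD Pool.Agent.W547.UB

/-- **Tate's pole conjecture for the abelian varieties of the CM types of the factors of `Y`, with the
algebraicity of the Weil classes proved by Markman.** Let `K` be any number field with an embedding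
`σ₀` in the field of complex numbers and let `A i` be abelian varieties over `K` with complex
multiplication over `K`, of the CM types of the factors of `Y` for `σ₀`. Let `X` be a projective
variety over `K` which is isogenous over `K` to the product of the `A i`. Then for all `m ≤ dim X` the
order of the pole of `L(H^{2m}(X), s)` at `s = m + 1` is the dimension of the space of the Tate classes
of degree `2 m`, and all these classes are Hodge classes and belong to the ring generated by the classes
of divisors and by the pull-backs of the Weil classes of imaginary quadratic fields on abelian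
varieties of dimension four and six of split Weil type. -/
def PoleForFactors (Y : CMAV) : Prop :=
  ∀ (K : Type) [Field K] [NumberField K] (σ₀ : K →+* ℂ)
    (A : ∀ i, CMOver K σ₀ (Y.factor i).E (Y.factor i).Φ) (n : ℕ)
    (eqs : Set (MvPolynomial (Fin n) (𝓞 K))) (d : ℕ), IsProductOf A eqs d →
      PoleIsTateRank A eqs d ∧
        ∀ (m : ℕ) (f : Y.H1 [⋀^Fin m × Fin 2]→ₗ[ℚ] ℚ), IsTateClass A m f →
          DWRing Y (Fin m × Fin 2) f

/-- Products of abelian varieties of CM type in independent blocks. -/
theorem pole_blocks (Y : CMAV) {S : Type} (b : Y.I → S) (hY : IndependentBlocks Y b) :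
    PoleForFactors Y := by
  intro K _ _ σ₀ A n eqs d hX
  refine ⟨poleIsTateRank hX, fun m f hf => ?_⟩
  obtain ⟨L, _, _, j, hj⟩ := exists_galois (fun i => (Y.factor i).E)
  have hf' : f ∈ tateClasses A (Fin m × Fin 2) m := mem_tateClasses.2 hf
  rw [tateClasses_eq] at hf'
  have h1 := T.tate_hodge (h := fun a => (A a).frob) (t := id) (fun a => (A a).isType) (by
      rw [Fintype.card_prod, Fintype.card_fin, Fintype.card_fin, mul_comm]) j hj hf' σ₀
  have h2 : (fun i => (A i).Φ σ₀) = fun i => (Y.factor i).Φ := funext fun i => (A i).eq_type
  rw [h2] at h1
  exact ring_blocks Y b hY f h1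

end Run7.h365.CM
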