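import Pool.Agent.H204R3.CM.Expand
import Pool.Agent.Y149.Ord
import Pool.Agent.N172.HS.Defs

/-!
# Products of abelian varieties with complex multiplication over a number field: definitions

`K` is a number field and `A a`, `a : J`, are abelian varieties over `K` with complex multiplication by
CM fields `E a` (`2 dim A a = [E a : ℚ]`, and `E a` acts on `A a` over `K`, up to isogeny).
-/

set_option autoImplicit false
set_option linter.unusedSectionVars false

namespace Run7.h365.CM

open NumberField IsDedekindDomain Filter Polynomial Module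
open Pool.Agent.N172.HS (TotPos)
open Pool.Agent.H204R3.CM (IsCMType per IsHodge)
open Pool.Agent.W353.EF (cone IsEulerSystem)
open Pool.Agent.Y149.Ord (HasOrder)

section

variable {K : Type} [Field K] [NumberField K]

/-- The types of an abelian variety `A` over `K` with complex multiplication by the CM field `E` over
`K`: for an embedding `σ` of `K` in the complex numbers, `Φ σ` is the CM type of the complex abelian
variety `A^σ`, given by the action of `E` on its tangent space; the CM type of `A^(gσ)` is `g Φ σ` for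
every automorphism `g` of the complex numbers. -/
structure IsTypeOver {E : Type} [Field E] (Φ : (K →+* ℂ) → Set (E →+* ℂ)) : Prop where
  cm : ∀ σ, IsCMType (Φ σ)
  gal : ∀ (g : ℂ ≃+* ℂ) (σ : K →+* ℂ) (φ : E →+* ℂ),
    (g : ℂ →+* ℂ).comp φ ∈ Φ ((g : ℂ →+* ℂ).comp σ) ↔ φ ∈ Φ σ

/-- The function `α` is different from zero exactly at the ideals prime to `𝔣`. -/
def HasSupport {E : Type} [Field E] (𝔣 : Ideal (𝓞 K)) (α : Ideal (𝓞 K) →*₀ E) : Prop :=
  ∀ 𝔞 : Ideal (𝓞 K), 𝔞 ≠ ⊥ → (α 𝔞 ≠ 0 ↔ IsCoprime 𝔞 𝔣)

/-- The values `α 𝔞 ≠ 0` have the absolute value `√N(𝔞)` at all complex embeddings of `E`. -/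
def HasWeightOne {E : Type} [Field E] (α : Ideal (𝓞 K) →*₀ E) : Prop :=
  ∀ 𝔞 : Ideal (𝓞 K), α 𝔞 ≠ 0 → ∀ φ : E →+* ℂ, ‖φ (α 𝔞)‖ ^ 2 = Ideal.absNorm 𝔞

open Classical in
/-- On the ideal generated by an element `x` congruent to one modulo `𝔣` (and totally positive; this
is no condition if `K` has no real embedding) the function `α` is the reflex norm: `φ (α (x))` is the
product of the `σ x` over the embeddings `σ` of `K` with `φ ∈ Φ σ`. -/
def IsReflexNorm {E : Type} [Field E] (Φ : (K →+* ℂ) → Set (E →+* ℂ)) (𝔣 : Ideal (𝓞 K))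
    (α : Ideal (𝓞 K) →*₀ E) : Prop :=
  ∀ x : 𝓞 K, x ≠ 0 → x - 1 ∈ 𝔣 → TotPos x → ∀ φ : E →+* ℂ,
    φ (α (Ideal.span {x})) = ∏ σ ∈ Finset.univ.filter (fun σ : K →+* ℂ => φ ∈ Φ σ), σ (x : K)

/-- The Frobenius elements of an abelian variety `A` over `K` with complex multiplication by `E` over `K`,
of the types `Φ σ` (Shimura and Taniyama): `α v ∈ E` is the Frobenius endomorphism of `A` at a prime
`v` where `A` has good reduction. It is extended to a multiplicative function on the ideals prime to
a modulus `𝔣`. -/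
structure FrobSystem (K E : Type) [Field K] [NumberField K] [Field E]
    (Φ : (K →+* ℂ) → Set (E →+* ℂ)) where
  𝔣 : Ideal (𝓞 K)
  ne_bot : 𝔣 ≠ ⊥
  α : Ideal (𝓞 K) →*₀ E
  supp : HasSupport 𝔣 α
  abs : HasWeightOne α
  ray : IsReflexNorm Φ 𝔣 α

/-- An abelian variety `A` over the number field `K` with complex multiplication by `E` over `K`, up to
isogeny over `K`, of the CM type `Φ₀` for the embedding `σ₀` of `K`. -/
structure CMOver (K : Type) [Field K] [NumberField K] (σ₀ : K →+* ℂ) (E : Type) [Field E]
    (Φ₀ : Set (E →+* ℂ)) where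
  Φ : (K →+* ℂ) → Set (E →+* ℂ)
  isType : IsTypeOver Φ
  eq_type : Φ σ₀ = Φ₀
  frob : FrobSystem K E Φ

variable {σ₀ : K →+* ℂ} {J : Type} [Fintype J] {E : J → Type} [∀ a, Field (E a)]
  [∀ a, NumberField (E a)] {Φ₀ : ∀ a, Set (E a →+* ℂ)} (A : ∀ a, CMOver K σ₀ (E a) (Φ₀ a))

/-- The number of the points of the product of the `A a` over the extension of degree `e` of the
residue field of `v`: the product of the numbers `1 - ψ(α v)^e` over all `a` and all complex embeddings
`ψ` of `E a`. -/
noncomputable def points (v : HeightOneSpectrum (𝓞 K)) (e : ℕ) : ℂ :=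
  ∏ a, ∏ ψ : E a →+* ℂ, (1 - ψ ((A a).frob.α v.asIdeal) ^ e)

/-- The projective variety over `K` with the equations `eqs` is, up to isogeny over `K`, the product of
the abelian varieties `A a`: its dimension is `d` with `2 d = ∑ [E a : ℚ]`, and at almost all primes `v`
of `K` it has over all finite extensions of the residue field the same number of points as the
product (`cone` is the number of points of the affine cone without the origin). -/
structure IsProductOf {n : ℕ} (eqs : Set (MvPolynomial (Fin n) (𝓞 K))) (d : ℕ) : Prop where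
  dim : 2 * d = ∑ a, finrank ℚ (E a)
  count : ∀ᶠ v : HeightOneSpectrum (𝓞 K) in cofinite,
    ∀ (κ : Type) [Field κ] [Finite κ] (φ : 𝓞 K →+* κ) (e : ℕ), RingHom.ker φ = v.asIdeal →
      Nat.card κ = Ideal.absNorm v.asIdeal ^ e →
      (cone eqs φ : ℂ) = ((Ideal.absNorm v.asIdeal : ℂ) ^ e - 1) * points A v e

/-- The Frobenius endomorphism of the product at the prime `v`, on its rational homology
`∏ a, E a`. -/
def frobAct (v : HeightOneSpectrum (𝓞 K)) (w : ∀ a, E a) : ∀ a, E a :=
  fun a => (A a).frob.α v.asIdeal * w a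

/-- The rational cohomology class `f` of degree `2 m` (an alternating form on the rational homology, in
variables indexed by a set `κ` with `2 m` elements) is a Tate class: the Frobenius endomorphisms at
almost all primes `v` of `K` act on it as the multiplication by `N(v)^m`. The classes of the algebraic
cycles of codimension `m` on the product which are defined over `K` have this property. -/
def IsTateClass {κ : Type} (m : ℕ) (f : (∀ a, E a) [⋀^κ]→ₗ[ℚ] ℚ) : Prop :=
  ∀ᶠ v : HeightOneSpectrum (𝓞 K) in cofinite, ∀ w : κ → ∀ a, E a,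
    f (fun l => frobAct A v (w l)) = (Ideal.absNorm v.asIdeal : ℚ) ^ m * f w

/-- The space of the Tate classes of degree `2 m` (they form a subspace, see `mem_tateClasses`). -/
def tateClasses (κ : Type) (m : ℕ) : Submodule ℚ ((∀ a, E a) [⋀^κ]→ₗ[ℚ] ℚ) :=
  Submodule.span ℚ {f | IsTateClass A m f}

/-- All Tate classes of degree `2 m` are Hodge classes, for all embeddings `σ` of `K` in the field of
complex numbers. -/
def TateIsHodge (m : ℕ) : Prop :=
  ∀ f : (∀ a, E a) [⋀^Fin m × Fin 2]→ₗ[ℚ] ℚ, IsTateClass A m f → ∀ σ : K →+* ℂ,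
    IsHodge (per (fun a => (A a).Φ σ) id) f

/-- The dimension of the space of the Tate classes of degree `2 m`. -/
noncomputable def tateRank (m : ℕ) : ℕ := finrank ℚ (tateClasses A (Fin m × Fin 2) m)

omit A in
/-- The Euler factors of `L(H^{2m}(X), s)` exist, for the projective variety `X` over `K` of dimension
`d` with the equations `eqs`, and for every choice `B` of these factors (with arbitrary factors at
finitely many primes) the order of `L(H^{2m}(X), s)` at the point `s = m + 1` is `- r`. -/
def HasPole {n : ℕ} (eqs : Set (MvPolynomial (Fin n) (𝓞 K))) (d m r : ℕ) : Prop :=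
  (∃ (N : ℕ) (B : HeightOneSpectrum (𝓞 K) → ℂ[X]),
    IsEulerSystem (K := K) (F := K) eqs d (2 * m) N B) ∧
  ∀ (N : ℕ) (B : HeightOneSpectrum (𝓞 K) → ℂ[X]),
    IsEulerSystem (K := K) (F := K) eqs d (2 * m) N B → HasOrder (2 * m) B (-(r : ℤ))

/-- For all `m` the Tate classes of degree `2 m` are Hodge classes, and for `m ≤ dim X` the order of the
pole of `L(H^{2m}(X), s)` at the point `s = m + 1` is the dimension of the space of the Tate
classes. -/
def PoleIsTateRank {n : ℕ} (eqs : Set (MvPolynomial (Fin n) (𝓞 K))) (d : ℕ) : Prop :=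
  (∀ m, TateIsHodge A m) ∧ ∀ m ≤ d, HasPole eqs d m (tateRank A m)

end

end Run7.h365.CM
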