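import Pool.Agent.Run7.h365.CM.Defs

/-!
# Products of the abelian varieties of a family: auxiliary definitions
-/

set_option autoImplicit false
set_option linter.unusedSectionVars false

namespace Run7.h365.CM.T

open NumberField IsDedekindDomain Filter
open Pool.Agent.W353.EF (cone)

section

variable {K : Type} [Field K] [NumberField K]
variable {ι J : Type} [Fintype J] {E : ι → Type} [∀ i, Field (E i)] [∀ i, NumberField (E i)]
  {Φ : ∀ i, (K →+* ℂ) → Set (E i →+* ℂ)} (h : ∀ i, FrobSystem K (E i) (Φ i)) (t : J → ι)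

/-- the product of the `A (t j)` -/
structure IsProductOf {n : ℕ} (eqs : Set (MvPolynomial (Fin n) (𝓞 K))) (d : ℕ) : Prop where
  dim : 2 * d = ∑ j, Module.finrank ℚ (E (t j))
  count : ∀ᶠ v : HeightOneSpectrum (𝓞 K) in cofinite,
    ∀ (κ : Type) [Field κ] [Finite κ] (φ : 𝓞 K →+* κ) (e : ℕ), RingHom.ker φ = v.asIdeal →
      Nat.card κ = Ideal.absNorm v.asIdeal ^ e →
      (cone eqs φ : ℂ) = ((Ideal.absNorm v.asIdeal : ℂ) ^ e - 1) *
        ∏ j, ∏ ψ : E (t j) →+* ℂ, (1 - ψ ((h (t j)).α v.asIdeal) ^ e)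

/-- the Frobenius endomorphism -/
def frobAct (v : HeightOneSpectrum (𝓞 K)) (w : ∀ j, E (t j)) : ∀ j, E (t j) :=
  fun j => (h (t j)).α v.asIdeal * w j

/-- Tate classes -/
def IsTateClass {κ : Type} (m : ℕ) (f : (∀ j, E (t j)) [⋀^κ]→ₗ[ℚ] ℚ) : Prop :=
  ∀ᶠ v : HeightOneSpectrum (𝓞 K) in cofinite, ∀ w : κ → ∀ j, E (t j),
    f (fun l => frobAct h t v (w l)) = (Ideal.absNorm v.asIdeal : ℚ) ^ m * f w

variable {h t}

theorem IsTateClass.add {κ : Type} {m : ℕ} {f g : (∀ j, E (t j)) [⋀^κ]→ₗ[ℚ] ℚ}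
    (hf : IsTateClass h t m f) (hg : IsTateClass h t m g) : IsTateClass h t m (f + g) := by
  unfold IsTateClass at hf hg ⊢
  filter_upwards [hf, hg] with v h1 h2 w
  rw [AlternatingMap.add_apply, AlternatingMap.add_apply, h1, h2, mul_add]

theorem IsTateClass.zero {κ : Type} {m : ℕ} :
    IsTateClass h t m (0 : (∀ j, E (t j)) [⋀^κ]→ₗ[ℚ] ℚ) := by
  refine Eventually.of_forall fun v w => ?_
  rw [AlternatingMap.zero_apply, AlternatingMap.zero_apply, mul_zero]

theorem IsTateClass.smul {κ : Type} {m : ℕ} (c : ℚ) {f : (∀ j, E (t j)) [⋀^κ]→ₗ[ℚ] ℚ}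
    (hf : IsTateClass h t m f) : IsTateClass h t m (c • f) := by
  unfold IsTateClass at hf ⊢
  filter_upwards [hf] with v h1 w
  rw [AlternatingMap.smul_apply, AlternatingMap.smul_apply, h1, smul_eq_mul, smul_eq_mul]
  ring

variable (h t)

/-- The space of the Tate classes of degree `2 m`. -/
def tateClasses (κ : Type) (m : ℕ) : Submodule ℚ ((∀ j, E (t j)) [⋀^κ]→ₗ[ℚ] ℚ) where
  carrier := {f | IsTateClass h t m f}
  add_mem' := IsTateClass.add
  zero_mem' := IsTateClass.zero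
  smul_mem' c _ := IsTateClass.smul c

end

end Run7.h365.CM.T
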