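import Mathlib
import Pool.Agent.H204R3.CM.Coef

/-!
# Alternating forms on the homology of a product, in complex coordinates
-/

set_option autoImplicit false
set_option linter.unusedSectionVars false

namespace Run7.h365.CM

open Module
open Pool.Agent.H204R3.CM (XX chi span_chi multilinear_ext_span formOf formOf_apply formOf_single
  form_coeff xEquiv embEquiv)

/-- linear independence of functions with rational values, over the complex numbers -/
theorem li_cast {Y : Type} {n : Type} [Fintype n] {f : n → Y → ℚ} (hf : LinearIndependent ℚ f) :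
    LinearIndependent ℂ (fun i y => ((f i y : ℚ) : ℂ)) := by
  rw [Fintype.linearIndependent_iff] at hf ⊢
  intro a ha i
  rw [← Module.forall_dual_apply_eq_zero_iff ℚ (a i)]
  intro p
  apply hf (fun i => p (a i))
  funext y
  have h1 := congrArg p (congrFun ha y)
  rw [Pi.zero_apply, map_zero, Finset.sum_apply, map_sum] at h1
  rw [Pi.zero_apply, Finset.sum_apply, ← h1]
  refine Finset.sum_congr rfl fun k _ => ?_
  rw [Pi.smul_apply, Pi.smul_apply, smul_eq_mul, smul_eq_mul]
  have h2 : a k * ((f k y : ℚ) : ℂ) = (f k y) • a k := by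
    rw [Rat.smul_def, mul_comm]
  rw [h2, map_smul, smul_eq_mul, mul_comm]

/-- the rank of a space of functions with rational values does not change over the complex numbers -/
theorem finrank_cast {A : Type} [AddCommGroup A] [Module ℚ A] [FiniteDimensional ℚ A]
    {Y : Type} (ev : A →ₗ[ℚ] (Y → ℚ)) (hev : Function.Injective ev) (U : Submodule ℚ A) :
    finrank ℂ (Submodule.span ℂ ((fun (f : A) (y : Y) => ((ev f y : ℚ) : ℂ)) '' (U : Set A))) =
      finrank ℚ U := by
  classical
  let b := finBasis ℚ U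
  let g : Fin (finrank ℚ U) → Y → ℂ := fun i y => ((ev (b i) y : ℚ) : ℂ)
  have h1 : LinearIndependent ℚ (fun i => ev ((b i : U) : A)) := by
    have h2 := b.linearIndependent.map' (ev.comp U.subtype)
      (LinearMap.ker_eq_bot.2 (hev.comp Subtype.val_injective))
    exact h2
  have h2 : LinearIndependent ℂ g := li_cast h1
  have h3 : Submodule.span ℂ ((fun (f : A) (y : Y) => ((ev f y : ℚ) : ℂ)) '' (U : Set A)) =
      Submodule.span ℂ (Set.range g) := by
    apply le_antisymm
    · rw [Submodule.span_le]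
      rintro _ ⟨f, hf, rfl⟩
      have h4 : (fun y => ((ev f y : ℚ) : ℂ)) =
          ∑ i, ((b.repr ⟨f, hf⟩ i : ℚ) : ℂ) • g i := by
        funext y
        have h5 : f = ∑ i, b.repr ⟨f, hf⟩ i • ((b i : U) : A) := by
          have h6 := congrArg (U.subtype) (b.sum_repr ⟨f, hf⟩)
          rw [map_sum] at h6
          simp only [map_smul, Submodule.subtype_apply] at h6
          exact h6.symm
        conv_lhs => rw [h5]
        rw [map_sum, Finset.sum_apply, Finset.sum_apply, Rat.cast_sum]
        refine Finset.sum_congr rfl fun i _ => ?_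
        rw [map_smul, Pi.smul_apply, smul_eq_mul, Rat.cast_mul]
        rfl
      change (fun y => ((ev f y : ℚ) : ℂ)) ∈ _
      rw [h4]
      exact Submodule.sum_mem _ fun i _ => Submodule.smul_mem _ _ (Submodule.subset_span ⟨i, rfl⟩)
    · rw [Submodule.span_le]
      rintro _ ⟨i, rfl⟩
      exact Submodule.subset_span ⟨b i, (b i).2, rfl⟩
  rw [h3, finrank_span_eq_card h2, Fintype.card_fin]

section

variable {ι J : Type} [Fintype J] {E : ι → Type} [∀ i, Field (E i)] [∀ i, NumberField (E i)]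
  {t : J → ι} {κ : Type} [Fintype κ] [DecidableEq κ]

/-- the wedge product of the coordinates with indices in `I` -/
noncomputable def dxf (I : κ → XX E t ℂ) (v : κ → ∀ a, E (t a)) : ℂ :=
  Matrix.det (Matrix.of fun k l => chi E t ℂ (v k) (I l))

theorem dxf_apply (I : κ → XX E t ℂ) (v : κ → ∀ a, E (t a)) :
    dxf I v = ∑ σ : Equiv.Perm κ, (Equiv.Perm.sign σ : ℤ) * ∏ l, chi E t ℂ (v (σ l)) (I l) := by
  unfold dxf
  rw [Matrix.det_apply]
  refine Finset.sum_congr rfl fun σ _ => ?_
  rw [Units.smul_def, zsmul_eq_mul]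
  rfl

theorem dxf_zero {I : κ → XX E t ℂ} (hI : ¬ Function.Injective I) : dxf I = 0 := by
  funext v
  unfold dxf
  rw [Function.Injective] at hI
  push Not at hI
  obtain ⟨a, b, h1, h2⟩ := hI
  refine Matrix.det_zero_of_column_eq h2 fun k => ?_
  rw [Matrix.of_apply, Matrix.of_apply, h1]

theorem dxf_perm (I : κ → XX E t ℂ) (τ : Equiv.Perm κ) :
    dxf (I ∘ τ) = ((Equiv.Perm.sign τ : ℤ) : ℂ) • dxf I := by
  funext v
  rw [Pi.smul_apply, smul_eq_mul]
  unfold dxf
  have h1 := Matrix.det_permute' τ (Matrix.of fun k l => chi E t ℂ (v k) (I l))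
  rw [← h1]
  rfl

/-- the sets of coordinates -/
abbrev Ty (E : ι → Type) [∀ i, Field (E i)] [∀ i, NumberField (E i)] (t : J → ι) (κ : Type)
    [Fintype κ] : Type := {S : Finset (XX E t ℂ) // S.card = Fintype.card κ}

theorem card_coe_eq (S : Ty E t κ) : Fintype.card κ = Fintype.card S.1 := by
  rw [Fintype.card_coe, S.2]

/-- the coordinates of a set, indexed by `κ` -/
noncomputable def en (S : Ty E t κ) : κ → XX E t ℂ :=
  fun l => (Fintype.equivOfCardEq (card_coe_eq S) l : XX E t ℂ)

theorem en_mem (S : Ty E t κ) (l : κ) : en S l ∈ S.1 := (Fintype.equivOfCardEq (card_coe_eq S) l).2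

theorem en_inj (S : Ty E t κ) : Function.Injective (en S) := fun _ _ h =>
  (Fintype.equivOfCardEq (card_coe_eq S)).injective (Subtype.ext h)

theorem prod_en {R : Type} [CommMonoid R] (S : Ty E t κ) (f : XX E t ℂ → R) :
    ∏ l, f (en S l) = ∏ x ∈ S.1, f x := by
  rw [← Finset.prod_coe_sort S.1 f]
  exact Fintype.prod_equiv (Fintype.equivOfCardEq (card_coe_eq S)) _ _ fun _ => rfl

/-- an injective family of coordinates is a permutation of the family of a set -/
theorem exists_perm {I : κ → XX E t ℂ} (hI : Function.Injective I) :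
    ∃ (S : Ty E t κ) (τ : Equiv.Perm κ), I = en S ∘ τ := by
  classical
  let S : Ty E t κ := ⟨Finset.univ.image I, by
    rw [Finset.card_image_of_injective _ hI, Finset.card_univ]⟩
  have h1 : ∀ l, ∃ k, en S k = I l := by
    intro l
    have h2 : I l ∈ S.1 := Finset.mem_image_of_mem I (Finset.mem_univ l)
    exact ⟨(Fintype.equivOfCardEq (card_coe_eq S)).symm ⟨I l, h2⟩, by
      unfold en
      rw [Equiv.apply_symm_apply]⟩
  choose τ hτ using h1
  have hinj : Function.Injective τ := by
    intro a b hab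
    apply hI
    rw [← hτ, ← hτ, hab]
  refine ⟨S, Equiv.ofBijective τ (Finite.injective_iff_bijective.1 hinj), ?_⟩
  funext l
  exact (hτ l).symm

/-- **The wedge products of the coordinates are linearly independent.** -/
theorem li_dxf : LinearIndependent ℂ (fun S : Ty E t κ => dxf (en S)) := by
  classical
  rw [Fintype.linearIndependent_iff]
  intro a ha S₀
  let c : (κ → XX E t ℂ) → ℂ := fun I => ∑ S : Ty E t κ, ∑ σ : Equiv.Perm κ,
    if I = en S ∘ (σ⁻¹ : Equiv.Perm κ) then a S * (Equiv.Perm.sign σ : ℤ) else 0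
  have hF : ∀ v : κ → XX E t ℂ → ℂ, formOf t c v =
      ∑ S : Ty E t κ, a S * ∑ σ : Equiv.Perm κ, (Equiv.Perm.sign σ : ℤ) * ∏ l, v (σ l) (en S l) := by
    intro v
    rw [formOf_apply]
    have h1 : ∀ I : κ → XX E t ℂ, c I * ∏ l, v l (I l) = ∑ S : Ty E t κ, ∑ σ : Equiv.Perm κ,
        if I = en S ∘ (σ⁻¹ : Equiv.Perm κ) then
          a S * (Equiv.Perm.sign σ : ℤ) * ∏ l, v l (I l) else 0 := by
      intro I
      change (∑ S : Ty E t κ, ∑ σ : Equiv.Perm κ, _) * _ = _
      rw [Finset.sum_mul]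
      refine Finset.sum_congr rfl fun S _ => ?_
      rw [Finset.sum_mul]
      refine Finset.sum_congr rfl fun σ _ => ?_
      rw [ite_mul, zero_mul]
    rw [Finset.sum_congr rfl (fun I _ => h1 I), Finset.sum_comm]
    refine Finset.sum_congr rfl fun S _ => ?_
    rw [Finset.sum_comm, Finset.mul_sum]
    refine Finset.sum_congr rfl fun σ _ => ?_
    rw [Finset.sum_ite_eq' Finset.univ (en S ∘ (σ⁻¹ : Equiv.Perm κ)), if_pos (Finset.mem_univ _),
      mul_assoc]
    congr 2
    refine Fintype.prod_equiv (σ⁻¹ : Equiv.Perm κ) _ _ fun l => ?_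
    have h2 : σ ((σ⁻¹ : Equiv.Perm κ) l) = l := σ.apply_symm_apply l
    rw [Function.comp_apply, h2]
  have h0 : formOf t c = 0 := by
    refine multilinear_ext_span _ _ _ (span_chi t) ?_
    intro v hv
    choose w hw using hv
    have hv' : v = fun l => chi E t ℂ (w l) := funext fun l => (hw l).symm
    rw [hv', hF, zero_apply]
    have h1 := congrFun ha w
    rw [Finset.sum_apply, Pi.zero_apply] at h1
    rw [← h1]
    refine Finset.sum_congr rfl fun S _ => ?_
    rw [Pi.smul_apply, smul_eq_mul, dxf_apply]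
  have h1 := DFunLike.congr_fun h0 (fun l => Pi.single (en S₀ l) (1 : ℂ))
  rw [hF, zero_apply, Finset.sum_eq_single S₀] at h1
  · rw [Finset.sum_eq_single (1 : Equiv.Perm κ)] at h1
    · simpa using h1
    · intro σ _ hσ
      obtain ⟨l, hl⟩ : ∃ l, σ l ≠ l := by
        by_contra h2
        push Not at h2
        exact hσ (Equiv.ext h2)
      rw [Finset.prod_eq_zero (Finset.mem_univ l), mul_zero]
      refine Pi.single_eq_of_ne ?_ _
      exact fun h2 => hl (en_inj S₀ h2.symm)
    · intro h2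
      exact absurd (Finset.mem_univ _) h2
  · intro S _ hS
    apply mul_eq_zero_of_right
    refine Finset.sum_eq_zero fun σ _ => ?_
    obtain ⟨x, hx1, hx2⟩ : ∃ x ∈ S.1, x ∉ S₀.1 := by
      by_contra h2
      push Not at h2
      apply hS
      apply Subtype.ext
      exact Finset.eq_of_subset_of_card_le h2 (by rw [S.2, S₀.2])
    obtain ⟨l, hl⟩ : ∃ l, en S l = x :=
      ⟨(Fintype.equivOfCardEq (card_coe_eq S)).symm ⟨x, hx1⟩, by
        unfold en
        rw [Equiv.apply_symm_apply]⟩
    rw [Finset.prod_eq_zero (Finset.mem_univ l), mul_zero]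
    refine Pi.single_eq_of_ne ?_ _
    intro h2
    apply hx2
    rw [← hl, h2]
    exact en_mem _ _
  · intro h2
    exact absurd (Finset.mem_univ _) h2

/-- the coefficients of a form are unique -/
theorem coeff_unique {c c' : (κ → XX E t ℂ) → ℂ}
    (hc : ∀ v : κ → ∀ a, E (t a), ∑ I : κ → XX E t ℂ, c I * ∏ l, chi E t ℂ (v l) (I l) =
      ∑ I : κ → XX E t ℂ, c' I * ∏ l, chi E t ℂ (v l) (I l)) : c = c' := by
  classical
  have h0 : formOf t c = formOf t c' := by
    refine multilinear_ext_span _ _ _ (span_chi t) ?_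
    intro v hv
    choose w hw using hv
    have hv' : v = fun l => chi E t ℂ (w l) := funext fun l => (hw l).symm
    rw [hv', formOf_apply, formOf_apply]
    exact hc w
  funext I
  have h1 := DFunLike.congr_fun h0 (fun l => Pi.single (I l) (1 : ℂ))
  rw [formOf_single, formOf_single] at h1
  simpa using h1

/-- the complex coefficients of a rational form -/
theorem form_coeff' {L : Type} [Field L] [NumberField L] (j : L →+* ℂ)
    (h : ∀ i, ∀ ψ : E i →+* ℂ, ∃ φ : E i →+* L, j.comp φ = ψ)
    (f : MultilinearMap ℚ (fun _ : κ => ∀ j, E (t j)) ℚ) :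
    ∃ c : (κ → XX E t ℂ) → ℂ, ∀ v : κ → ∀ j, E (t j),
      ((f v : ℚ) : ℂ) = ∑ I : κ → XX E t ℂ, c I * ∏ l, chi E t ℂ (v l) (I l) := by
  obtain ⟨c, hc⟩ := form_coeff t j h f
  let e : (κ → XX E t L) ≃ (κ → XX E t ℂ) := Equiv.arrowCongr (Equiv.refl κ) (xEquiv t j h)
  refine ⟨fun I => j (c (e.symm I)), fun v => ?_⟩
  have h2 := congrArg j (hc v)
  rw [map_ratCast] at h2
  rw [h2, map_sum]
  refine Fintype.sum_equiv e _ _ fun I => ?_
  change _ = j (c (e.symm (e I))) * _
  rw [map_mul, map_prod, Equiv.symm_apply_apply]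
  rfl

/-- an alternating form as a combination of wedge products of coordinates -/
theorem alt_expand {f : (∀ a, E (t a)) [⋀^κ]→ₗ[ℚ] ℚ} {c : (κ → XX E t ℂ) → ℂ}
    (hc : ∀ v : κ → ∀ j, E (t j),
      ((f v : ℚ) : ℂ) = ∑ I : κ → XX E t ℂ, c I * ∏ l, chi E t ℂ (v l) (I l)) :
    (fun v => ((f v : ℚ) : ℂ)) = (((Fintype.card κ).factorial : ℂ))⁻¹ •
      ∑ I : κ → XX E t ℂ, c I • dxf I := by
  funext v
  have h1 : ((Fintype.card κ).factorial : ℂ) * ((f v : ℚ) : ℂ) =
      ∑ I : κ → XX E t ℂ, c I * dxf I v := by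
    have h2 : ∀ I : κ → XX E t ℂ, c I * dxf I v = ∑ σ : Equiv.Perm κ,
        (Equiv.Perm.sign σ : ℤ) * (c I * ∏ l, chi E t ℂ (v (σ l)) (I l)) := by
      intro I
      rw [dxf_apply, Finset.mul_sum]
      refine Finset.sum_congr rfl fun σ _ => ?_
      ring
    rw [Finset.sum_congr rfl (fun I _ => h2 I), Finset.sum_comm]
    have h3 : ∀ σ : Equiv.Perm κ, ∑ I : κ → XX E t ℂ,
        ((Equiv.Perm.sign σ : ℤ) : ℂ) * (c I * ∏ l, chi E t ℂ (v (σ l)) (I l)) =
          ((f v : ℚ) : ℂ) := by
      intro σ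
      rw [← Finset.mul_sum, ← hc (fun l => v (σ l))]
      have h4 : f (fun l => v (σ l)) = Equiv.Perm.sign σ • f v := f.map_perm v σ
      rw [h4, Units.smul_def, zsmul_eq_mul]
      push_cast
      rw [← mul_assoc, ← Int.cast_mul, Int.units_coe_mul_self, Int.cast_one, one_mul]
    rw [Finset.sum_congr rfl (fun σ _ => h3 σ), Finset.sum_const, Finset.card_univ,
      Fintype.card_perm, nsmul_eq_mul]
  rw [Pi.smul_apply, Finset.sum_apply, smul_eq_mul]
  have h2 : ((Fintype.card κ).factorial : ℂ) ≠ 0 :=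
    Nat.cast_ne_zero.2 (Nat.factorial_ne_zero _)
  simp only [Pi.smul_apply, smul_eq_mul]
  rw [← h1, ← mul_assoc, inv_mul_cancel₀ h2, one_mul]

end

end Run7.h365.CM
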