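import Pool.Agent.Run7.h365.CM.Psi

/-!
# The infinity type of a trivial character
-/

set_option autoImplicit false
set_option linter.unusedSectionVars false

namespace Run7.h365.CM.T

open NumberField IsDedekindDomain Filter Complex
open Pool.Agent.N172.HS (TotPos IsHecke arch)
open Pool.Agent.H204R3.CM (IsCMType per XX)
open Polynomial

section

/-- an integer of `K` which is totally positive, with different conjugates -/
theorem exists_gen (K : Type) [Field K] [NumberField K] :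
    ∃ y : 𝓞 K, (∀ σ : K →+* ℝ, 0 < σ (y : K)) ∧
      (∀ σ : K →+* ℂ, σ (y : K) ≠ 0) ∧ Function.Injective fun σ : K →+* ℂ => σ (y : K) := by
  classical
  obtain ⟨θ, hθ⟩ := Field.exists_primitive_element ℚ K
  have halg : IsAlgebraic ℤ θ := by
    have h1 : IsAlgebraic ℚ θ := Algebra.IsAlgebraic.isAlgebraic θ
    exact (IsFractionRing.isAlgebraic_iff ℤ ℚ K).2 h1
  obtain ⟨d, hd, hint⟩ := halg.exists_integral_multiple
  have hinj : Function.Injective fun σ : K →+* ℂ => σ θ := by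
    have h1 := (Field.primitive_element_iff_algHom_eq_of_eval' ℚ ℂ
      (fun x => IsAlgClosed.splits _) θ).1 hθ
    intro σ τ hστ
    have h2 := @h1 (RingHom.equivRatAlgHom (R := K) (S := ℂ) σ)
      (RingHom.equivRatAlgHom (R := K) (S := ℂ) τ) hστ
    exact (RingHom.equivRatAlgHom (R := K) (S := ℂ)).injective h2
  let y0 : 𝓞 K := ⟨d • θ, hint⟩
  have hy0 : (y0 : K) = d • θ := rfl
  obtain ⟨N, hN⟩ : ∃ N : ℕ, ∀ σ : K →+* ℂ, ‖σ (y0 : K)‖ < N := by
    obtain ⟨N, hN⟩ := exists_nat_gt (∑ σ : K →+* ℂ, ‖σ (y0 : K)‖)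
    refine ⟨N, fun σ => lt_of_le_of_lt ?_ hN⟩
    exact Finset.single_le_sum (f := fun σ : K →+* ℂ => ‖σ (y0 : K)‖)
      (fun σ _ => norm_nonneg _) (Finset.mem_univ σ)
  have hcoe : ((y0 + (N : 𝓞 K) : 𝓞 K) : K) = y0 + N := by
    push_cast
    rfl
  refine ⟨y0 + N, ?_, ?_, ?_⟩
  · intro σ
    have h1 := hN (Complex.ofRealHom.comp σ)
    have h2 : ‖(Complex.ofRealHom.comp σ) (y0 : K)‖ = |σ (y0 : K)| := by
      change ‖((σ (y0 : K) : ℝ) : ℂ)‖ = _
      rw [Complex.norm_real, Real.norm_eq_abs]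
    rw [h2] at h1
    rw [hcoe, map_add, map_natCast]
    linarith [neg_abs_le (σ (y0 : K))]
  · intro σ h0
    rw [hcoe, map_add, map_natCast] at h0
    have h1 := hN σ
    rw [eq_neg_of_add_eq_zero_left h0, norm_neg, Complex.norm_natCast] at h1
    exact lt_irrefl _ h1
  · intro σ τ hστ
    apply hinj
    have h1 : σ (y0 : K) = τ (y0 : K) := by
      have h2 : σ ((y0 + (N : 𝓞 K) : 𝓞 K) : K) = τ ((y0 + (N : 𝓞 K) : 𝓞 K) : K) := hστ
      rw [hcoe, map_add, map_add, map_natCast, map_natCast] at h2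
      exact add_right_cancel h2
    rw [hy0, map_zsmul, map_zsmul] at h1
    exact smul_right_injective ℂ hd h1

/-- comparison of multiplicities -/
theorem exp_eq {u P Q : ℂ[X]} {r : ℂ} {a b : ℕ} (hu : u ≠ 0) (hur : u.eval r = 0)
    (hP : P.eval r ≠ 0) (hQ : Q.eval r ≠ 0) (h : u ^ a * P = u ^ b * Q) : a = b := by
  rcases lt_trichotomy a b with h1 | h1 | h1
  · exfalso
    obtain ⟨c, rfl⟩ := Nat.exists_eq_add_of_lt h1
    rw [show a + c + 1 = a + (c + 1) by ring, pow_add, mul_assoc] at h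
    have h2 := mul_left_cancel₀ (pow_ne_zero a hu) h
    apply hP
    rw [h2, eval_mul, eval_pow, hur, zero_pow (Nat.succ_ne_zero c), zero_mul]
  · exact h1
  · exfalso
    obtain ⟨c, rfl⟩ := Nat.exists_eq_add_of_lt h1
    rw [show b + c + 1 = b + (c + 1) by ring, pow_add, mul_assoc] at h
    have h2 := mul_left_cancel₀ (pow_ne_zero b hu) h
    apply hQ
    rw [← h2, eval_mul, eval_pow, hur, zero_pow (Nat.succ_ne_zero c), zero_mul]

variable {K : Type} [Field K] [NumberField K]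
variable {ι J : Type} [Fintype J] {E : ι → Type} [∀ i, Field (E i)] [∀ i, NumberField (E i)]
  {Φ : ∀ i, (K →+* ℂ) → Set (E i →+* ℂ)} {h : ∀ i, FrobSystem K (E i) (Φ i)} {t : J → ι}
  {κ : Type} [Fintype κ] {I : κ → XX E t ℂ}

/-- the values at the elements of the ray -/
theorem ray_eq (hΦ : ∀ i, IsTypeOver (Φ i)) {m : ℕ} (hm : Fintype.card κ = 2 * m)
    (htr : ∀ 𝔞, psi h t I m 𝔞 ≠ 0 → psi h t I m 𝔞 = 1) {x : 𝓞 K} (hx : x ≠ 0)
    (hx1 : x - 1 ∈ modulus h t I) (hpos : TotPos x) :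
    ∏ σ : K →+* ℂ, σ (x : K) ^ (2 * cnt t I Φ σ) = ∏ σ : K →+* ℂ, σ (x : K) ^ (2 * m) := by
  have h0 : Ideal.span {x} ≠ 0 := by
    rw [Ne, Ideal.zero_eq_bot, Ideal.span_singleton_eq_bot]
    exact hx
  have hcop : IsCoprime (Ideal.span {x}) (modulus h t I) := by
    rw [Ideal.isCoprime_iff_exists]
    refine ⟨x, Ideal.mem_span_singleton_self x, 1 - x, ?_, by ring⟩
    have := (modulus h t I).neg_mem hx1
    rwa [neg_sub] at this
  have hne : psi h t I m (Ideal.span {x}) ≠ 0 :=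
    ((isHecke_psi hΦ hm).supp _ (by rwa [← Ideal.zero_eq_bot])).2 hcop
  have h1 := htr _ hne
  rw [psi_ne h0, prod_ray hx hx1 hpos] at h1
  have h2 : ∏ σ : K →+* ℂ, σ (x : K) ^ cnt t I Φ σ = (Ideal.absNorm (Ideal.span {x}) : ℂ) ^ m := by
    have h3 : (Ideal.absNorm (Ideal.span {x}) : ℂ) ^ m ≠ 0 := pow_ne_zero _ (absNorm_ne h0)
    field_simp at h1
    exact h1
  have h4 : (Ideal.absNorm (Ideal.span {x}) : ℂ) ^ 2 = (∏ σ : K →+* ℂ, σ (x : K)) ^ 2 := by
    have h5 : (Ideal.absNorm (Ideal.span {x}) : ℂ) = ((∏ σ : K →+* ℂ, ‖σ (x : K)‖ : ℝ) : ℂ) := by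
      rw [← absNorm_span x]
      push_cast
      rfl
    have h6 : (∏ σ : K →+* ℂ, σ (x : K)) ^ 2 =
        (∏ σ : K →+* ℂ, σ (x : K)) * ∏ σ : K →+* ℂ, (ComplexEmbedding.conjugate σ) (x : K) := by
      rw [prod_conj (fun σ : K →+* ℂ => σ (x : K)), pow_two]
    rw [h5, h6, ← Finset.prod_mul_distrib, ← Complex.ofReal_pow, ← Finset.prod_pow]
    push_cast
    refine Finset.prod_congr rfl fun σ _ => ?_
    rw [ComplexEmbedding.conjugate_coe_eq, Complex.mul_conj, Complex.normSq_eq_norm_sq]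
    push_cast
    rfl
  have h7 : ∏ σ : K →+* ℂ, σ (x : K) ^ (2 * cnt t I Φ σ) =
      (∏ σ : K →+* ℂ, σ (x : K) ^ cnt t I Φ σ) ^ 2 := by
    rw [← Finset.prod_pow]
    refine Finset.prod_congr rfl fun σ _ => ?_
    rw [← pow_mul, mul_comm]
  rw [h7, h2, ← pow_mul, mul_comm m 2, pow_mul, h4, Finset.prod_pow, ← pow_mul]

/-- **The infinity type of a trivial character.** -/
theorem cnt_eq (hΦ : ∀ i, IsTypeOver (Φ i)) {m : ℕ} (hm : Fintype.card κ = 2 * m)
    (htr : ∀ 𝔞, psi h t I m 𝔞 ≠ 0 → psi h t I m 𝔞 = 1) (σ₀ : K →+* ℂ) : cnt t I Φ σ₀ = m := by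
  classical
  obtain ⟨y, hy1, hy2, hy3⟩ := exists_gen K
  set M : ℕ := Ideal.absNorm (modulus h t I) with hM
  have hM0 : M ≠ 0 := by
    rw [hM, Ne, Ideal.absNorm_eq_zero_iff]
    exact modulus_ne
  have hMmem : ((M : ℕ) : 𝓞 K) ∈ modulus h t I := Ideal.absNorm_mem _
  let u : (K →+* ℂ) → ℂ[X] := fun σ => C (σ (y : K)) * X + 1
  have hu : ∀ σ z, (u σ).eval z = σ (y : K) * z + 1 := by
    intro σ z
    simp [u]
  have hune : ∀ σ, u σ ≠ 0 := by
    intro σ h0
    have h1 := hu σ 0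
    rw [h0] at h1
    simp at h1
  let P : ℂ[X] := ∏ σ : K →+* ℂ, u σ ^ (2 * cnt t I Φ σ)
  let Q : ℂ[X] := ∏ σ : K →+* ℂ, u σ ^ (2 * m)
  have hPQ : P = Q := by
    obtain ⟨n₀, hn₀⟩ := exists_nat_gt ‖(σ₀ (y : K))⁻¹‖
    apply Polynomial.eq_of_infinite_eval_eq
    have hinj : Function.Injective (fun n : ℕ => (((n + n₀ + 1) * M : ℕ) : ℂ)) := by
      intro a b hab
      have hab' : (((a + n₀ + 1) * M : ℕ) : ℂ) = (((b + n₀ + 1) * M : ℕ) : ℂ) := hab
      have h1 : (a + n₀ + 1) * M = (b + n₀ + 1) * M := by exact_mod_cast hab'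
      have h2 := Nat.eq_of_mul_eq_mul_right (Nat.pos_of_ne_zero hM0) h1
      omega
    refine Set.infinite_of_injective_forall_mem hinj fun n => ?_
    set c : ℕ := (n + n₀ + 1) * M with hc
    have hcx : ∀ σ : K →+* ℂ, σ ((1 + (c : 𝓞 K) * y : 𝓞 K) : K) = σ (y : K) * c + 1 := by
      intro σ
      push_cast
      rw [map_add, map_mul, map_one, map_natCast]
      ring
    have hxne : (1 + (c : 𝓞 K) * y : 𝓞 K) ≠ 0 := by
      intro h0
      have h1 := hcx σ₀
      rw [h0] at h1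
      simp only [map_zero] at h1
      have h2 : σ₀ (y : K) * c = -1 := by linear_combination -h1
      have h3 : (σ₀ (y : K))⁻¹ = -c := by
        have := hy2 σ₀
        field_simp
        linear_combination h2
      rw [h3, norm_neg, Complex.norm_natCast] at hn₀
      have h4 : n₀ < c := by
        rw [hc]
        have := Nat.le_mul_of_pos_right (n + n₀ + 1) (Nat.pos_of_ne_zero hM0)
        omega
      have h5 : (n₀ : ℝ) < c := by exact_mod_cast h4
      linarith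
    have hray := ray_eq hΦ hm htr hxne (by
      have h1 : (1 + (c : 𝓞 K) * y : 𝓞 K) - 1 = (((n + n₀ + 1 : ℕ) : 𝓞 K) * y) * (M : 𝓞 K) := by
        rw [hc]
        push_cast
        ring
      rw [h1]
      exact Ideal.mul_mem_left _ _ hMmem) (by
      intro σ
      push_cast
      rw [map_add, map_mul, map_one, map_natCast]
      have h1 := hy1 σ
      positivity)
    change P.eval _ = Q.eval _
    simp only [P, Q, eval_prod, eval_pow, hu]
    simp only [hcx] at hray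
    exact hray
  have hσ := hy2 σ₀
  have hroot : (u σ₀).eval (-(σ₀ (y : K))⁻¹) = 0 := by
    rw [hu, mul_neg, mul_inv_cancel₀ hσ]
    ring
  have hoth : ∀ σ ∈ Finset.univ.erase σ₀, (u σ).eval (-(σ₀ (y : K))⁻¹) ≠ 0 := by
    intro σ hσ' h0
    rw [hu] at h0
    apply Finset.ne_of_mem_erase hσ'
    apply hy3
    change σ (y : K) = σ₀ (y : K)
    field_simp at h0
    linear_combination -h0
  have h1 := exp_eq (u := u σ₀) (P := ∏ σ ∈ Finset.univ.erase σ₀, u σ ^ (2 * cnt t I Φ σ))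
    (Q := ∏ σ ∈ Finset.univ.erase σ₀, u σ ^ (2 * m)) (a := 2 * cnt t I Φ σ₀) (b := 2 * m)
    (hune σ₀) hroot ?_ ?_ ?_
  · omega
  · rw [eval_prod]
    refine Finset.prod_ne_zero_iff.2 fun σ hσ' => ?_
    rw [eval_pow]
    exact pow_ne_zero _ (hoth σ hσ')
  · rw [eval_prod]
    refine Finset.prod_ne_zero_iff.2 fun σ hσ' => ?_
    rw [eval_pow]
    exact pow_ne_zero _ (hoth σ hσ')
  · have e1 := Finset.mul_prod_erase Finset.univ (fun σ => u σ ^ (2 * cnt t I Φ σ))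
      (Finset.mem_univ σ₀)
    have e2 := Finset.mul_prod_erase Finset.univ (fun σ => u σ ^ (2 * m)) (Finset.mem_univ σ₀)
    exact e1.trans (hPQ.trans e2.symm)

end

end Run7.h365.CM.T
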