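import Pool.Agent.Run7.h365.CM.DefsT
import Pool.Agent.N172.HS.Nv

/-!
# The Hecke characters in the cohomology of a product of abelian varieties with complex multiplication
-/

set_option autoImplicit false
set_option linter.unusedSectionVars false

namespace Run7.h365.CM.T

open NumberField IsDedekindDomain Filter Complex
open Pool.Agent.N172.HS (TotPos IsHecke arch)
open Pool.Agent.H204R3.CM (IsCMType per XX)

section

variable {K : Type} [Field K] [NumberField K]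

/-- the complex conjugation as an automorphism of the field of complex numbers -/
noncomputable def cj : ℂ ≃+* ℂ := starRingAut

theorem cj_comp {F : Type} [Field F] (φ : F →+* ℂ) :
    (cj : ℂ →+* ℂ).comp φ = ComplexEmbedding.conjugate φ := rfl

theorem _root_.Run7.h365.CM.IsTypeOver.conj {E : Type} [Field E] {Φ : (K →+* ℂ) → Set (E →+* ℂ)} (hΦ : IsTypeOver Φ)
    (σ : K →+* ℂ) (φ : E →+* ℂ) : φ ∈ Φ (ComplexEmbedding.conjugate σ) ↔ φ ∉ Φ σ := by
  have h1 := hΦ.gal cj σ (ComplexEmbedding.conjugate φ)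
  rw [cj_comp, cj_comp] at h1
  have h2 : ComplexEmbedding.conjugate (ComplexEmbedding.conjugate φ) = φ := star_involutive φ
  rw [h2] at h1
  rw [h1]
  have h3 := hΦ.cm σ φ
  tauto

variable {ι J : Type} [Fintype J] {E : ι → Type} [∀ i, Field (E i)] [∀ i, NumberField (E i)]
  {Φ : ∀ i, (K →+* ℂ) → Set (E i →+* ℂ)} (h : ∀ i, FrobSystem K (E i) (Φ i)) (t : J → ι)
  {κ : Type} [Fintype κ] (I : κ → XX E t ℂ)

/-- the product of the Frobenius eigenvalues -/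
noncomputable def lam (𝔞 : Ideal (𝓞 K)) : ℂ := ∏ l, (I l).2 ((h (t (I l).1)).α 𝔞)

open Classical in
/-- the number of the `l` with `φ_l ∈ Φ σ` -/
noncomputable def cnt (Φ : ∀ i, (K →+* ℂ) → Set (E i →+* ℂ)) (σ : K →+* ℂ) : ℕ :=
  (Finset.univ.filter (fun l => (I l).2 ∈ Φ (t (I l).1) σ)).card

open Classical in
/-- the unitary Hecke character -/
noncomputable def psi (m : ℕ) : Ideal (𝓞 K) →*₀ ℂ where
  toFun 𝔞 := if 𝔞 = 0 then 0 else lam h t I 𝔞 * ((Ideal.absNorm 𝔞 : ℂ) ^ m)⁻¹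
  map_zero' := if_pos rfl
  map_one' := by
    rw [if_neg one_ne_zero]
    unfold lam
    simp only [map_one, Finset.prod_const_one, Nat.cast_one, one_pow, inv_one, mul_one]
  map_mul' 𝔞 𝔟 := by
    by_cases h1 : 𝔞 = 0
    · rw [h1, zero_mul, if_pos rfl, zero_mul]
    · by_cases h2 : 𝔟 = 0
      · rw [h2, mul_zero, if_pos rfl, mul_zero]
      · rw [if_neg h1, if_neg h2, if_neg (mul_ne_zero h1 h2)]
        unfold lam
        simp only [map_mul, Finset.prod_mul_distrib, Nat.cast_mul, mul_pow, mul_inv]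
        ring

variable {h t I}

theorem psi_ne {m : ℕ} {𝔞 : Ideal (𝓞 K)} (h0 : 𝔞 ≠ 0) :
    psi h t I m 𝔞 = lam h t I 𝔞 * ((Ideal.absNorm 𝔞 : ℂ) ^ m)⁻¹ := if_neg h0

theorem absNorm_ne {𝔞 : Ideal (𝓞 K)} (h0 : 𝔞 ≠ 0) : (Ideal.absNorm 𝔞 : ℂ) ≠ 0 := by
  have : Ideal.absNorm 𝔞 ≠ 0 := by
    rw [Ne, Ideal.absNorm_eq_zero_iff]
    exact h0
  exact_mod_cast this

/-- the modulus -/
noncomputable def modulus (h : ∀ i, FrobSystem K (E i) (Φ i)) (t : J → ι) (I : κ → XX E t ℂ) :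
    Ideal (𝓞 K) := ∏ l, (h (t (I l).1)).𝔣

theorem modulus_ne : modulus h t I ≠ ⊥ := by
  unfold modulus
  rw [← Ideal.zero_eq_bot]
  exact Finset.prod_ne_zero_iff.2 fun l _ => (h _).ne_bot

theorem lam_ne_zero_iff {𝔞 : Ideal (𝓞 K)} (h0 : 𝔞 ≠ 0) :
    lam h t I 𝔞 ≠ 0 ↔ IsCoprime 𝔞 (modulus h t I) := by
  unfold lam modulus
  rw [Finset.prod_ne_zero_iff, IsCoprime.prod_right_iff]
  refine forall_congr' fun l => forall_congr' fun _ => ?_
  rw [Ne, map_eq_zero, ← Ne, (h _).supp 𝔞 h0]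

theorem norm_lam (hκ : ∃ m, Fintype.card κ = 2 * m) {𝔞 : Ideal (𝓞 K)} (h1 : lam h t I 𝔞 ≠ 0) :
    ‖lam h t I 𝔞‖ = (Ideal.absNorm 𝔞 : ℝ) ^ (Fintype.card κ / 2) := by
  obtain ⟨m, hm⟩ := hκ
  have h2 : ‖lam h t I 𝔞‖ ^ 2 = ((Ideal.absNorm 𝔞 : ℝ) ^ m) ^ 2 := by
    unfold lam at h1 ⊢
    rw [norm_prod, ← Finset.prod_pow]
    have h3 : ∀ l ∈ (Finset.univ : Finset κ), ‖(I l).2 ((h (t (I l).1)).α 𝔞)‖ ^ 2 =
        Ideal.absNorm 𝔞 := by
      intro l _
      refine (h _).abs 𝔞 ?_ _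
      have h4 := (Finset.prod_ne_zero_iff.1 h1) l (Finset.mem_univ l)
      exact fun h5 => h4 (by rw [h5, map_zero])
    rw [Finset.prod_congr rfl h3, Finset.prod_const, Finset.card_univ, hm, ← pow_mul, mul_comm]
  rw [hm, Nat.mul_div_cancel_left _ (by norm_num)]
  exact (pow_left_inj₀ (norm_nonneg _) (by positivity) two_ne_zero).1 h2

open Classical in
theorem prod_ray {x : 𝓞 K} (hx : x ≠ 0) (hx1 : x - 1 ∈ modulus h t I) (hpos : TotPos x) :
    lam h t I (Ideal.span {x}) = ∏ σ : K →+* ℂ, σ (x : K) ^ cnt t I Φ σ := by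
  unfold lam
  have h1 : ∀ l ∈ (Finset.univ : Finset κ), (I l).2 ((h (t (I l).1)).α (Ideal.span {x})) =
      ∏ σ : K →+* ℂ, (if (I l).2 ∈ Φ (t (I l).1) σ then σ (x : K) else 1) := by
    intro l _
    rw [(h _).ray x hx ?_ hpos, Finset.prod_filter]
    have h2 : modulus h t I ≤ (h (t (I l).1)).𝔣 := by
      unfold modulus
      exact Ideal.le_of_dvd (Finset.dvd_prod_of_mem _ (Finset.mem_univ l))
    exact h2 hx1
  rw [Finset.prod_congr rfl h1, Finset.prod_comm]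
  refine Finset.prod_congr rfl fun σ _ => ?_
  rw [Finset.prod_ite, Finset.prod_const_one, mul_one, Finset.prod_const]
  rfl

open Classical in
theorem cnt_conj (hΦ : ∀ i, IsTypeOver (Φ i)) (σ : K →+* ℂ) :
    cnt t I Φ σ + cnt t I Φ (ComplexEmbedding.conjugate σ) = Fintype.card κ := by
  unfold cnt
  have h1 : (Finset.univ.filter (fun l => (I l).2 ∈ Φ (t (I l).1) (ComplexEmbedding.conjugate σ))) =
      Finset.univ.filter (fun l => ¬ (I l).2 ∈ Φ (t (I l).1) σ) := by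
    refine Finset.filter_congr fun l _ => ?_
    exact (hΦ _).conj σ _
  rw [h1, Finset.card_filter_add_card_filter_not, Finset.card_univ]

theorem absNorm_span (x : 𝓞 K) : ((Ideal.absNorm (Ideal.span {x}) : ℕ) : ℝ) =
    ∏ σ : K →+* ℂ, ‖σ (x : K)‖ := by
  rw [Ideal.absNorm_span_singleton, Nat.cast_natAbs]
  have h1 : ((Algebra.norm ℤ x : ℤ) : ℚ) = Algebra.norm ℚ (x : K) := Algebra.coe_norm_int x
  have h2 := Algebra.norm_eq_prod_embeddings ℚ ℂ (x : K)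
  have h3 : ∏ σ : K →ₐ[ℚ] ℂ, σ (x : K) = ∏ σ : K →+* ℂ, σ (x : K) :=
    Fintype.prod_equiv (RingHom.equivRatAlgHom (R := K) (S := ℂ)).symm _ _ fun σ => rfl
  rw [← norm_prod, ← h3, ← h2, ← h1]
  simp

/-- a product over the embeddings, squared -/
theorem prod_conj {R : Type} [CommMonoid R] (f : (K →+* ℂ) → R) :
    ∏ σ : K →+* ℂ, f (ComplexEmbedding.conjugate σ) = ∏ σ : K →+* ℂ, f σ :=
  Fintype.prod_equiv ⟨ComplexEmbedding.conjugate, ComplexEmbedding.conjugate,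
    fun σ => star_involutive σ, fun σ => star_involutive σ⟩ _ _ fun _ => rfl

theorem prod_norm_cnt (hΦ : ∀ i, IsTypeOver (Φ i)) {m : ℕ} (hm : Fintype.card κ = 2 * m) (x : K) :
    ∏ σ : K →+* ℂ, ‖σ x‖ ^ cnt t I Φ σ = ∏ σ : K →+* ℂ, ‖σ x‖ ^ m := by
  have h1 : (∏ σ : K →+* ℂ, ‖σ x‖ ^ cnt t I Φ σ) ^ 2 = (∏ σ : K →+* ℂ, ‖σ x‖ ^ m) ^ 2 := by
    rw [pow_two]
    conv_lhs =>
      rhs
      rw [← prod_conj]
    rw [← Finset.prod_mul_distrib, ← Finset.prod_pow]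
    refine Finset.prod_congr rfl fun σ _ => ?_
    have h2 : ‖(ComplexEmbedding.conjugate σ) x‖ = ‖σ x‖ := by
      rw [ComplexEmbedding.conjugate_coe_eq, Complex.norm_conj]
    rw [h2, ← pow_add, cnt_conj hΦ, hm, ← pow_mul, mul_comm 2 m]
  exact (pow_left_inj₀ (Finset.prod_nonneg fun _ _ => by positivity)
    (Finset.prod_nonneg fun _ _ => by positivity) two_ne_zero).1 h1

/-- **The Hecke character.** -/
theorem isHecke_psi (hΦ : ∀ i, IsTypeOver (Φ i)) {m : ℕ} (hm : Fintype.card κ = 2 * m) :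
    IsHecke (modulus h t I) (fun σ => (cnt t I Φ σ : ℤ)) 0 (psi h t I m) where
  ne_bot := modulus_ne
  supp 𝔞 h𝔞 := by
    rw [psi_ne (by rwa [Ideal.zero_eq_bot]), mul_ne_zero_iff]
    rw [← Ideal.zero_eq_bot] at h𝔞
    rw [lam_ne_zero_iff h𝔞]
    exact and_iff_left (inv_ne_zero (pow_ne_zero _ (absNorm_ne h𝔞)))
  unit 𝔞 h𝔞 := by
    have h0 : 𝔞 ≠ 0 := by
      rintro rfl
      exact h𝔞 (map_zero _)
    rw [psi_ne h0] at h𝔞 ⊢
    rw [norm_mul, norm_lam ⟨m, hm⟩ (left_ne_zero_of_mul h𝔞), hm,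
      Nat.mul_div_cancel_left _ (by norm_num), norm_inv, norm_pow, Complex.norm_natCast]
    refine mul_inv_cancel₀ (pow_ne_zero _ ?_)
    have := absNorm_ne h0
    exact_mod_cast this
  ray x hx hx1 hpos := by
    have h0 : Ideal.span {x} ≠ 0 := by
      rw [Ne, Ideal.zero_eq_bot, Ideal.span_singleton_eq_bot]
      exact hx
    rw [psi_ne h0, prod_ray hx hx1 hpos]
    have hxK : (x : K) ≠ 0 := by exact_mod_cast hx
    have h1 : ((Ideal.absNorm (Ideal.span {x}) : ℕ) : ℂ) ^ m =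
        ∏ σ : K →+* ℂ, ((‖σ (x : K)‖ : ℝ) : ℂ) ^ cnt t I Φ σ := by
      have h2 := absNorm_span x
      have h3 : ((Ideal.absNorm (Ideal.span {x}) : ℕ) : ℂ) =
          ((∏ σ : K →+* ℂ, ‖σ (x : K)‖ : ℝ) : ℂ) := by
        rw [← h2]
        push_cast
        rfl
      rw [h3, ← Complex.ofReal_pow, ← Finset.prod_pow,
        ← prod_norm_cnt (Φ := Φ) (t := t) (I := I) hΦ hm (x : K)]
      push_cast
      rfl
    rw [h1]
    unfold arch
    rw [← Finset.prod_inv_distrib, ← Finset.prod_mul_distrib]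
    refine Finset.prod_congr rfl fun σ _ => ?_
    simp only [Pi.zero_apply, zero_mul, Complex.ofReal_zero, Complex.exp_zero, mul_one]
    rw [zpow_natCast, div_pow]
    rfl

end

end Run7.h365.CM.T
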