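import Pool.Agent.Run7.h365.CM.Forms
import Pool.Agent.Run7.h365.CM.Psi

/-!
# The dimension of the space of Tate classes
-/

set_option autoImplicit false
set_option linter.unusedSectionVars false

namespace Run7.h365.CM.T

open Module NumberField IsDedekindDomain Filter
open Pool.Agent.H204R3.CM (XX chi xEquiv embEquiv)

section

variable {K : Type} [Field K] [NumberField K]
variable {ι J : Type} [Fintype J] {E : ι → Type} [∀ i, Field (E i)] [∀ i, NumberField (E i)]
  {Φ : ∀ i, (K →+* ℂ) → Set (E i →+* ℂ)} {h : ∀ i, FrobSystem K (E i) (Φ i)} {t : J → ι}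
  {κ : Type} [Fintype κ] [DecidableEq κ] {m : ℕ}

/-- the product of the Frobenius eigenvalues is `q^m` at almost all primes -/
def AE (h : ∀ i, FrobSystem K (E i) (Φ i)) (t : J → ι) (I : κ → XX E t ℂ) (m : ℕ) : Prop :=
  ∀ᶠ v : HeightOneSpectrum (𝓞 K) in cofinite,
    lam h t I v.asIdeal = (Ideal.absNorm v.asIdeal : ℂ) ^ m

theorem chi_frobAct (v : HeightOneSpectrum (𝓞 K)) (w : ∀ a, E (t a)) (x : XX E t ℂ) :
    chi E t ℂ (frobAct h t v w) x = x.2 ((h (t x.1)).α v.asIdeal) * chi E t ℂ w x :=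
  map_mul _ _ _

theorem lam_perm (I : κ → XX E t ℂ) (τ : Equiv.Perm κ) (𝔞 : Ideal (𝓞 K)) :
    lam h t (I ∘ τ) 𝔞 = lam h t I 𝔞 := by
  unfold lam
  exact Equiv.prod_comp τ (fun l => (I l).2 ((h (t (I l).1)).α 𝔞))

/-- the coefficients of the Tate classes -/
theorem coeff_AE {f : (∀ a, E (t a)) [⋀^κ]→ₗ[ℚ] ℚ} (hf : f ∈ tateClasses h t κ m)
    {c : (κ → XX E t ℂ) → ℂ} (hc : ∀ v : κ → ∀ j, E (t j),
      ((f v : ℚ) : ℂ) = ∑ I : κ → XX E t ℂ, c I * ∏ l, chi E t ℂ (v l) (I l))
    {I : κ → XX E t ℂ} (hI : c I ≠ 0) : AE h t I m := by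
  have hf' : ∀ᶠ v : HeightOneSpectrum (𝓞 K) in cofinite, ∀ w : κ → ∀ j, E (t j),
    f (fun l => frobAct h t v (w l)) = (Ideal.absNorm v.asIdeal : ℚ) ^ m * f w := hf
  filter_upwards [hf'] with v hv
  have h1 := coeff_unique (c := fun I => c I * lam h t I v.asIdeal)
    (c' := fun I => (Ideal.absNorm v.asIdeal : ℂ) ^ m * c I) (fun w => by
      have h2 := hc (fun l => frobAct h t v (w l))
      rw [hv w, Rat.cast_mul, hc w] at h2
      simp only [Rat.cast_pow, Rat.cast_natCast] at h2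
      simp only [mul_assoc]
      rw [← Finset.mul_sum, h2]
      refine Finset.sum_congr rfl fun I _ => ?_
      simp only [chi_frobAct]
      rw [Finset.prod_mul_distrib]
      rfl)
  have h2 : c I * lam h t I v.asIdeal = (Ideal.absNorm v.asIdeal : ℂ) ^ m * c I := congrFun h1 I
  rw [mul_comm] at h2
  exact mul_right_cancel₀ hI h2

/-- the determinant as an alternating form over the rational numbers -/
def detQ (L : Type) [Field L] [NumberField L] : (κ → L) [⋀^κ]→ₗ[ℚ] L where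
  toMultilinearMap := (Matrix.detRowAlternating (R := L) (n := κ)).toMultilinearMap.restrictScalars ℚ
  map_eq_zero_of_eq' v _ _ hik hne :=
    (Matrix.detRowAlternating (R := L) (n := κ)).map_eq_zero_of_eq v hik hne

theorem detQ_apply {L : Type} [Field L] [NumberField L] (v : κ → κ → L) :
    detQ L v = Matrix.det (Matrix.of v) := rfl

/-- some coordinates, with values in a number field -/
def chiL {L : Type} [Field L] [NumberField L] (I : κ → XX E t L) :
    (∀ a, E (t a)) →ₗ[ℚ] (κ → L) :=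
  LinearMap.pi fun l => ((I l).2.toRatAlgHom.toLinearMap).comp (LinearMap.proj (I l).1)

theorem chiL_apply {L : Type} [Field L] [NumberField L] (I : κ → XX E t L) (w : ∀ a, E (t a))
    (l : κ) : chiL I w l = chi E t L w (I l) := rfl

/-- the wedge products of the coordinates are combinations of Tate classes -/
theorem dxf_mem {S : Ty E t κ} (hS : AE h t (en S) m) {L : Type} [Field L] [NumberField L]
    (j : L →+* ℂ) (hj : ∀ i, ∀ ψ : E i →+* ℂ, ∃ φ : E i →+* L, j.comp φ = ψ) :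
    dxf (en S) ∈ Submodule.span ℂ
      ((fun (f : (∀ a, E (t a)) [⋀^κ]→ₗ[ℚ] ℚ) (v : κ → ∀ a, E (t a)) => ((f v : ℚ) : ℂ)) ''
        (tateClasses h t κ m : Set ((∀ a, E (t a)) [⋀^κ]→ₗ[ℚ] ℚ))) := by
  let b := finBasis ℚ L
  let I : κ → XX E t L := fun l => (xEquiv t j hj).symm (en S l)
  have hI : ∀ l, xEquiv t j hj (I l) = en S l := fun l => Equiv.apply_symm_apply _ _
  have hchi : ∀ (w : ∀ a, E (t a)) (l : κ), j (chi E t L w (I l)) = chi E t ℂ w (en S l) := by
    intro w l
    rw [← hI]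
    rfl
  let D : (∀ a, E (t a)) [⋀^κ]→ₗ[ℚ] L := (detQ L).compLinearMap (chiL I)
  have hD : ∀ v, D v = Matrix.det (Matrix.of fun k l => chi E t L (v k) (I l)) := fun v => rfl
  have hjD : ∀ v, j (D v) = dxf (en S) v := by
    intro v
    rw [hD, RingHom.map_det]
    unfold dxf
    congr 1
    ext k l
    exact hchi (v k) l
  have hDF : ∀ v : HeightOneSpectrum (𝓞 K),
      lam h t (en S) v.asIdeal = (Ideal.absNorm v.asIdeal : ℂ) ^ m → ∀ w : κ → ∀ a, E (t a),
      D (fun l => frobAct h t v (w l)) = ((Ideal.absNorm v.asIdeal : ℚ) ^ m) • D w := by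
    intro v hv w
    apply j.injective
    have h1 : j (((Ideal.absNorm v.asIdeal : ℚ) ^ m) • D w) =
        (Ideal.absNorm v.asIdeal : ℂ) ^ m * j (D w) := by
      rw [Rat.smul_def, map_mul]
      simp
    rw [h1, hjD, hjD]
    unfold dxf
    have h2 := Matrix.det_mul_row (fun l => (en S l).2 ((h (t (en S l).1)).α v.asIdeal))
      (Matrix.of fun k l => chi E t ℂ (w k) (en S l))
    rw [← hv]
    change _ = (∏ l, _) * _
    rw [← h2]
    congr 1
    ext k l
    exact chi_frobAct v (w k) (en S l)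
  let f : Fin (finrank ℚ L) → (∀ a, E (t a)) [⋀^κ]→ₗ[ℚ] ℚ := fun k =>
    (b.coord k).compAlternatingMap D
  have hf : ∀ k, f k ∈ tateClasses h t κ m := by
    intro k
    change ∀ᶠ v : HeightOneSpectrum (𝓞 K) in cofinite, ∀ w : κ → ∀ j, E (t j),
      f k (fun l => frobAct h t v (w l)) = (Ideal.absNorm v.asIdeal : ℚ) ^ m * f k w
    filter_upwards [hS] with v hv w
    change b.coord k (D _) = _ * b.coord k (D w)
    rw [hDF v hv w, map_smul, smul_eq_mul]
  have h1 : dxf (en S) = ∑ k, j (b k) • (fun v => ((f k v : ℚ) : ℂ)) := by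
    funext v
    rw [← hjD, Finset.sum_apply]
    conv_lhs => rw [← b.sum_repr (D v)]
    rw [map_sum]
    refine Finset.sum_congr rfl fun k _ => ?_
    rw [Rat.smul_def, map_mul, map_ratCast, Pi.smul_apply, smul_eq_mul, mul_comm]
    rfl
  rw [h1]
  exact Submodule.sum_mem _ fun k _ => Submodule.smul_mem _ _ (Submodule.subset_span ⟨f k, hf k, rfl⟩)

/-- the complexification of the space of Tate classes -/
theorem span_tate {L : Type} [Field L] [NumberField L]
    (j : L →+* ℂ) (hj : ∀ i, ∀ ψ : E i →+* ℂ, ∃ φ : E i →+* L, j.comp φ = ψ) :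
    Submodule.span ℂ
      ((fun (f : (∀ a, E (t a)) [⋀^κ]→ₗ[ℚ] ℚ) (v : κ → ∀ a, E (t a)) => ((f v : ℚ) : ℂ)) ''
        (tateClasses h t κ m : Set ((∀ a, E (t a)) [⋀^κ]→ₗ[ℚ] ℚ))) =
      Submodule.span ℂ (Set.range fun S : {S : Ty E t κ // AE h t (en S) m} => dxf (en S.1)) := by
  apply le_antisymm
  · rw [Submodule.span_le]
    rintro _ ⟨f, hf, rfl⟩
    obtain ⟨c, hc⟩ := form_coeff' j hj f.toMultilinearMap
    have h1 := alt_expand (f := f) hc
    change (fun v => ((f v : ℚ) : ℂ)) ∈ _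
    rw [h1]
    refine Submodule.smul_mem _ _ (Submodule.sum_mem _ fun I _ => ?_)
    by_cases hI : c I = 0
    · rw [hI, zero_smul]
      exact Submodule.zero_mem _
    · refine Submodule.smul_mem _ _ ?_
      have h2 := coeff_AE hf hc hI
      by_cases h3 : Function.Injective I
      · obtain ⟨S, τ, rfl⟩ := exists_perm h3
        rw [dxf_perm]
        refine Submodule.smul_mem _ _ (Submodule.subset_span ⟨⟨S, ?_⟩, rfl⟩)
        filter_upwards [h2] with v hv
        rw [← hv, lam_perm]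
      · rw [dxf_zero h3]
        exact Submodule.zero_mem _
  · rw [Submodule.span_le]
    rintro _ ⟨S, rfl⟩
    exact dxf_mem S.2 j hj

/-- **The dimension of the space of Tate classes.** -/
theorem finrank_tate {L : Type} [Field L] [NumberField L]
    (j : L →+* ℂ) (hj : ∀ i, ∀ ψ : E i →+* ℂ, ∃ φ : E i →+* L, j.comp φ = ψ) :
    finrank ℚ (tateClasses h t κ m) = Nat.card {S : Ty E t κ // AE h t (en S) m} := by
  classical
  have hfin : FiniteDimensional ℚ ((∀ a, E (t a)) [⋀^κ]→ₗ[ℚ] ℚ) :=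
    Module.Finite.of_injective
      (AlternatingMap.toMultilinearMapLM (R := ℚ) (S := ℚ) (M := ∀ a, E (t a)) (N := ℚ) (ι := κ))
      AlternatingMap.coe_multilinearMap_injective
  let ev : ((∀ a, E (t a)) [⋀^κ]→ₗ[ℚ] ℚ) →ₗ[ℚ] ((κ → ∀ a, E (t a)) → ℚ) :=
    { toFun := fun f v => f v
      map_add' := fun _ _ => rfl
      map_smul' := fun _ _ => rfl }
  have hev : Function.Injective ev := fun f g hfg => AlternatingMap.ext fun v => congrFun hfg v
  have h1 := finrank_cast ev hev (tateClasses h t κ m)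
  rw [← h1]
  have h2 := span_tate (h := h) (t := t) (κ := κ) (m := m) j hj
  have h3 : Submodule.span ℂ ((fun (f : (∀ a, E (t a)) [⋀^κ]→ₗ[ℚ] ℚ) (y : κ → ∀ a, E (t a)) =>
      ((ev f y : ℚ) : ℂ)) '' (tateClasses h t κ m : Set ((∀ a, E (t a)) [⋀^κ]→ₗ[ℚ] ℚ))) =
      Submodule.span ℂ (Set.range fun S : {S : Ty E t κ // AE h t (en S) m} => dxf (en S.1)) := h2
  have h4 : LinearIndependent ℂ (fun S : {S : Ty E t κ // AE h t (en S) m} => dxf (en S.1)) :=
    li_dxf.comp _ Subtype.val_injective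
  rw [h3, finrank_span_eq_card h4, Nat.card_eq_fintype_card]

end

end Run7.h365.CM.T
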