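import Pool.Agent.Run7.h365.CM.Ord
import Pool.Agent.Run7.h365.CM.Inf
import Pool.Agent.Run7.h365.CM.Tate
import Pool.Agent.W353.PV.Eig

/-!
# The Euler factors and the order for products of abelian varieties with complex multiplication
-/

set_option autoImplicit false
set_option linter.unusedSectionVars false

namespace Run7.h365.CM.T

open Module NumberField IsDedekindDomain Filter Topology Polynomial
open Pool.Agent.H204R3.CM (XX chi)
open Pool.Agent.N172.HS (IsHecke TotPos)
open Pool.Agent.W353.EF (cone IsFrobenius IsEulerSystem)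
open Pool.Agent.Y149.Ord (HasOrder tendsto_size)
open Pool.Agent.Y772.NZ (one one_ne one_norm)

/-! ### Trivial characters -/

section

variable {K : Type} [Field K] [NumberField K]

theorem isHecke_one (K : Type) [Field K] [NumberField K] :
    IsHecke (⊤ : Ideal (𝓞 K)) (fun _ => 0) (fun _ => 0) (one K) where
  ne_bot := top_ne_bot
  supp 𝔞 h𝔞 := by
    rw [one_ne K (by rwa [Ideal.zero_eq_bot]), Ideal.isCoprime_iff_sup_eq, sup_top_eq]
    exact iff_of_true one_ne_zero rfl
  unit 𝔞 h𝔞 := by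
    have h0 : 𝔞 ≠ 0 := by
      rintro rfl
      exact h𝔞 (map_zero _)
    rw [one_ne K h0, norm_one]
  ray x hx _ _ := by
    have h0 : Ideal.span {x} ≠ 0 := by
      rw [Ne, Ideal.zero_eq_bot, Ideal.span_singleton_eq_bot]
      exact hx
    rw [one_ne K h0]
    unfold Pool.Agent.N172.HS.arch
    simp

theorem hasOrder_unique {i : ℕ} {B : HeightOneSpectrum (𝓞 K) → ℂ[X]} {k k' : ℤ}
    (h : HasOrder i B k) (h' : HasOrder i B k') : k = k' := by
  have h1 := tendsto_nhds_unique (tendsto_size h) (tendsto_size h')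
  have h2 : (k : ℝ) = k' := by linarith
  exact_mod_cast h2

/-- almost all primes do not divide a nonzero ideal -/
theorem eventually_coprime {𝔣 : Ideal (𝓞 K)} (h : 𝔣 ≠ ⊥) :
    ∀ᶠ v : HeightOneSpectrum (𝓞 K) in cofinite, IsCoprime v.asIdeal 𝔣 := by
  rw [Filter.eventually_cofinite]
  refine (Ideal.finite_factors (I := 𝔣) (by rwa [Ideal.zero_eq_bot])).subset ?_
  intro v hv
  rw [Set.mem_ofPred_eq] at hv ⊢
  rw [Ideal.dvd_iff_le]
  by_contra h1
  apply hv
  rw [Ideal.isCoprime_iff_sup_eq]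
  by_contra h2
  apply h1
  have h3 := (v.isMaximal.eq_of_le h2 le_sup_left)
  rw [h3]
  exact le_sup_right

/-- **A Hecke character with the value one at almost all primes is trivial.** -/
theorem triv_of_ae {𝔣 : Ideal (𝓞 K)} {k : (K →+* ℂ) → ℤ} {t : (K →+* ℂ) → ℝ}
    {ψ : Ideal (𝓞 K) →*₀ ℂ} (h : IsHecke 𝔣 k t ψ)
    (h1 : ∀ᶠ v : HeightOneSpectrum (𝓞 K) in cofinite, ψ v.asIdeal = 1) : IsTriv ψ := by
  classical
  let B : HeightOneSpectrum (𝓞 K) → ℂ[X] := fun v => 1 - C (ψ v.asIdeal) * X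
  have hB : ∀ v z, (B v).eval z = 1 - ψ v.asIdeal * z := by
    intro v z
    simp [B]
  have hq : ∀ v : HeightOneSpectrum (𝓞 K), ((Ideal.absNorm v.asIdeal : ℕ) : ℂ) ≠ 0 := by
    intro v
    have := norm_v_pos v
    exact_mod_cast (by omega : Ideal.absNorm v.asIdeal ≠ 0)
  have hB0 : ∀ v, (B v).eval ((Ideal.absNorm v.asIdeal : ℂ) ^ (-((((0 : ℕ) : ℕ) : ℂ) / 2 + 1))) ≠ 0 := by
    intro v h0
    rw [hB] at h0
    have h2 : (-((((0 : ℕ) : ℕ) : ℂ) / 2 + 1)) = ((-1 : ℤ) : ℂ) := by push_cast; ring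
    rw [h2, Complex.cpow_intCast, zpow_neg_one] at h0
    have h3 : ψ v.asIdeal = (Ideal.absNorm v.asIdeal : ℂ) := by
      have := hq v
      field_simp at h0
      linear_combination -h0
    have h4 := h.norm_le v.asIdeal
    rw [h3, Complex.norm_natCast] at h4
    have h5 : (2 : ℝ) ≤ Ideal.absNorm v.asIdeal := by exact_mod_cast norm_v_pos v
    linarith
  have e1 := hasOrder_prod (ι := Unit) (fun _ => ψ) (fun _ => ⟨𝔣, k, t, h⟩) (i := 0) B
    (Eventually.of_forall fun v z => by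
      rw [hB, Fintype.prod_unique]
      simp) hB0
  have e2 := hasOrder_prod (ι := Unit) (fun _ => one K) (fun _ => ⟨⊤, _, _, isHecke_one K⟩)
    (i := 0) B (by
      filter_upwards [h1] with v hv z
      rw [hB, hv, Fintype.prod_unique, one_ne K (by rw [Ideal.zero_eq_bot]; exact v.ne_bot)]
      simp) hB0
  have e3 := hasOrder_unique e1 e2
  have h2 : IsTriv (one K) := by
    intro 𝔞 h𝔞
    by_cases h0 : 𝔞 = 0
    · exact absurd (by rw [h0, map_zero]) h𝔞
    · exact one_ne K h0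
  by_contra h3
  rw [Nat.card_eq_fintype_card, Nat.card_eq_fintype_card, Fintype.card_subtype,
    Fintype.card_subtype, Finset.filter_true_of_mem (fun _ _ => h2),
    Finset.filter_false_of_mem (fun _ _ => h3)] at e3
  simp at e3

end

section

variable {K : Type} [Field K] [NumberField K]
variable {ι J : Type} [Fintype J] {E : ι → Type} [∀ i, Field (E i)] [∀ i, NumberField (E i)]
  {Φ : ∀ i, (K →+* ℂ) → Set (E i →+* ℂ)} {h : ∀ i, FrobSystem K (E i) (Φ i)} {t : J → ι}

theorem isTriv_iff (hΦ : ∀ i, IsTypeOver (Φ i)) {κ : Type} [Fintype κ] {m : ℕ}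
    (hm : Fintype.card κ = 2 * m) (I : κ → XX E t ℂ) :
    IsTriv (psi h t I m) ↔ AE h t I m := by
  have hH := isHecke_psi (h := h) (t := t) (I := I) hΦ hm
  constructor
  · intro h1
    filter_upwards [eventually_coprime hH.ne_bot] with v hv
    have h2 := h1 _ ((hH.supp _ v.ne_bot).2 hv)
    have h0 : v.asIdeal ≠ 0 := by rw [Ideal.zero_eq_bot]; exact v.ne_bot
    rw [psi_ne h0] at h2
    have h3 : (Ideal.absNorm v.asIdeal : ℂ) ^ m ≠ 0 := pow_ne_zero _ (absNorm_ne h0)
    field_simp at h2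
    exact h2
  · intro h1
    refine triv_of_ae hH ?_
    filter_upwards [h1] with v hv
    have h0 : v.asIdeal ≠ 0 := by rw [Ideal.zero_eq_bot]; exact v.ne_bot
    rw [psi_ne h0, hv]
    exact mul_inv_cancel₀ (pow_ne_zero _ (absNorm_ne h0))

/-- the eigenvalues of the Frobenius on the first cohomology -/
noncomputable def mu (h : ∀ i, FrobSystem K (E i) (Φ i)) (t : J → ι) (v : HeightOneSpectrum (𝓞 K))
    (x : XX E t ℂ) : ℂ := x.2 ((h (t x.1)).α v.asIdeal)

theorem eventually_mu (h : ∀ i, FrobSystem K (E i) (Φ i)) (t : J → ι) :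
    ∀ᶠ v : HeightOneSpectrum (𝓞 K) in cofinite, ∀ x : XX E t ℂ,
      ‖mu h t v x‖ = (Ideal.absNorm v.asIdeal : ℝ) ^ ((1 : ℝ) / 2) := by
  rw [Filter.eventually_all]
  rintro ⟨a, φ⟩
  filter_upwards [eventually_coprime (h (t a)).ne_bot] with v hv
  have h1 : (h (t a)).α v.asIdeal ≠ 0 := ((h (t a)).supp _ v.ne_bot).2 hv
  have h2 := (h (t a)).abs _ h1 φ
  change ‖φ ((h (t a)).α v.asIdeal)‖ = _
  rw [← h2, ← Real.sqrt_eq_rpow, Real.sqrt_sq (norm_nonneg _)]

theorem sum_powerset {α : Type} [DecidableEq α] (s : Finset α) (f : Finset α → ℂ) :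
    ∑ S ∈ s.powerset, f S = ∑ k ∈ Finset.range (s.card + 1), ∑ S ∈ s.powersetCard k, f S := by
  rw [Finset.powerset_card_disjiUnion, Finset.sum_disjiUnion]

/-- the expansion of the number of points -/
theorem prod_expand {α : Type} [Fintype α] [DecidableEq α] (μ : α → ℂ) (e : ℕ) :
    ∏ x, (1 - μ x ^ e) = ∑ k ∈ Finset.range (Fintype.card α + 1), (-1 : ℂ) ^ k *
      (((Finset.univ.powersetCard k).val.map (fun S => ∏ x ∈ S, μ x)).map (fun z => z ^ e)).sum := by
  have h1 : ∏ x, (1 - μ x ^ e) = ∏ x, (1 + (-(μ x ^ e))) := by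
    simp only [sub_eq_add_neg]
  rw [h1, Finset.prod_one_add, sum_powerset, Finset.card_univ]
  refine Finset.sum_congr rfl fun k _ => ?_
  rw [Multiset.map_map]
  change _ = _ * ∑ S ∈ Finset.univ.powersetCard k, (∏ x ∈ S, μ x) ^ e
  rw [Finset.mul_sum]
  refine Finset.sum_congr rfl fun S hS => ?_
  rw [Finset.prod_neg, (Finset.mem_powersetCard.1 hS).2, Finset.prod_pow]

variable {n : ℕ} {eqs : Set (MvPolynomial (Fin n) (𝓞 K))} {d : ℕ}

theorem card_XX (hX : IsProductOf h t eqs d) : Fintype.card (XX E t ℂ) = 2 * d := by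
  rw [hX.dim, Fintype.card_sigma]
  refine Finset.sum_congr rfl fun a _ => ?_
  rw [← NumberField.Embeddings.card (E (t a)) ℂ]

/-- the eigenvalues on the cohomology of degree `k` -/
theorem isFrobenius_prod (hX : IsProductOf h t eqs d) :
    ∀ᶠ v : HeightOneSpectrum (𝓞 K) in cofinite, ∀ k,
      ∃ α : Fin (Fintype.card {S : Finset (XX E t ℂ) // S.card = k}) → ℂ,
        IsFrobenius (K := K) (F := K) eqs d k v α ∧ ∀ z : ℂ, ∏ j, (1 - α j * z) =
          ∏ S : {S : Finset (XX E t ℂ) // S.card = k}, (1 - (∏ x ∈ S.1, mu h t v x) * z) := by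
  classical
  filter_upwards [hX.count, eventually_mu h t] with v hv hmu k
  let e := (Fintype.equivFin {S : Finset (XX E t ℂ) // S.card = k}).symm
  refine ⟨fun j => ∏ x ∈ (e j).1, mu h t v x, ⟨fun k =>
    (Finset.univ.powersetCard k).val.map (fun S => ∏ x ∈ S, mu h t v x), ?_, ?_, ?_⟩, ?_⟩
  · have h1 : (Finset.univ.powersetCard k : Finset (Finset (XX E t ℂ))) =
        Finset.univ.image (fun j => (e j).1) := by
      ext S
      rw [Finset.mem_powersetCard_univ, Finset.mem_image]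
      constructor
      · intro hS
        exact ⟨e.symm ⟨S, hS⟩, Finset.mem_univ _, by rw [Equiv.apply_symm_apply]⟩
      · rintro ⟨j, _, rfl⟩
        exact (e j).2
    simp only
    rw [h1, Finset.image_val_of_injOn]
    · rw [Multiset.map_map]
      rfl
    · intro a _ b _ hab
      exact e.injective (Subtype.ext hab)
  · intro k z hz
    obtain ⟨S, hS, rfl⟩ := Multiset.mem_map.1 hz
    rw [norm_prod, Finset.prod_congr rfl (fun x _ => hmu x), Finset.prod_const,
      (Finset.mem_powersetCard.1 (show S ∈ Finset.univ.powersetCard k from hS)).2,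
      ← Real.rpow_natCast, ← Real.rpow_mul
        (Nat.cast_nonneg _)]
    congr 1
    ring
  · intro κ _ _ φ e hk hc
    have h1 : ∀ ψ : 𝓞 K →+* 𝓞 K, (∀ x, ψ x = x) → φ.comp ψ = φ := fun ψ hψ =>
      RingHom.ext fun x => by rw [RingHom.comp_apply, hψ]
    rw [h1 _ (fun x => RingOfIntegers.ext rfl), hv κ φ e hk hc]
    congr 1
    have h2 := prod_expand (mu h t v) e
    rw [card_XX hX] at h2
    rw [← h2, Fintype.prod_sigma]
    rfl
  · intro z
    exact Fintype.prod_equiv e _ _ fun j => rfl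

/-- the Euler factors -/
theorem euler_prod (hX : IsProductOf h t eqs d) {k : ℕ} (hk : k ≤ 2 * d) {N : ℕ}
    {B : HeightOneSpectrum (𝓞 K) → ℂ[X]} (hB : IsEulerSystem (K := K) (F := K) eqs d k N B) :
    ∀ᶠ v : HeightOneSpectrum (𝓞 K) in cofinite, ∀ z : ℂ, (B v).eval z =
      ∏ S : {S : Finset (XX E t ℂ) // S.card = k}, (1 - (∏ x ∈ S.1, mu h t v x) * z) := by
  filter_upwards [hB.1, isFrobenius_prod hX] with v h1 h2 z
  obtain ⟨α, hα, hBv⟩ := h1
  obtain ⟨α', hα', h3⟩ := h2 k
  have h4 := Pool.Agent.W353.PV.Eig.unique' (K := K) (F := K) (X := eqs) hk hα hα'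
  rw [hBv, ← h3]
  have h5 : ∀ {M : ℕ} (a : Fin M → ℂ), ∏ j, (1 - a j * z) =
      ((Finset.univ.val.map a).map (fun y => 1 - y * z)).prod := by
    intro M a
    rw [Multiset.map_map]
    rfl
  rw [h5, h5, h4]

/-- the Euler system exists -/
theorem exists_euler (hX : IsProductOf h t eqs d) (k : ℕ) :
    ∃ B : HeightOneSpectrum (𝓞 K) → ℂ[X],
      IsEulerSystem (K := K) (F := K) eqs d k ((2 * d).choose k) B := by
  classical
  have hcard : Fintype.card {S : Finset (XX E t ℂ) // S.card = k} = (2 * d).choose k := by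
    rw [Fintype.card_finset_len, card_XX hX]
  have h1 := isFrobenius_prod hX
  rw [hcard.symm]
  let good : HeightOneSpectrum (𝓞 K) → Prop := fun v =>
    ∃ α : Fin (Fintype.card {S : Finset (XX E t ℂ) // S.card = k}) → ℂ,
        IsFrobenius (K := K) (F := K) eqs d k v α
  let B : HeightOneSpectrum (𝓞 K) → ℂ[X] := fun v =>
    if hv : good v then ∏ j, (1 - C (hv.choose j) * X) else 1
  have hBg : ∀ v (hv : good v) z, (B v).eval z = ∏ j, (1 - hv.choose j * z) := by
    intro v hv z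
    simp only [B, dif_pos hv, eval_prod]
    refine Finset.prod_congr rfl fun j _ => ?_
    simp
  refine ⟨B, ?_, ?_⟩
  · filter_upwards [h1] with v hv
    obtain ⟨α, hα, -⟩ := hv k
    have hg : good v := ⟨α, hα⟩
    exact ⟨hg.choose, hg.choose_spec, fun z => hBg v hg z⟩
  · intro v
    by_cases hg : good v
    · rw [hBg v hg]
      refine Finset.prod_ne_zero_iff.2 fun j _ h0 => ?_
      obtain ⟨β, hβ1, hβ2, -⟩ := hg.choose_spec
      have h2 : hg.choose j ∈ β k := by
        rw [hβ1]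
        exact Multiset.mem_map_of_mem _ (Finset.mem_univ j)
      have h3 := hβ2 k _ h2
      have hq : (2 : ℝ) ≤ Ideal.absNorm v.asIdeal := by exact_mod_cast norm_v_pos v
      have hq0 : (0 : ℝ) < Ideal.absNorm v.asIdeal := by linarith
      have h4 : ‖hg.choose j * (Ideal.absNorm v.asIdeal : ℂ) ^ (-((k : ℂ) / 2 + 1))‖ = 1 := by
        rw [← sub_eq_zero.1 h0, norm_one]
      rw [norm_mul, h3, Complex.norm_natCast_cpow_of_pos (by exact_mod_cast hq0),
        ← Real.rpow_add hq0] at h4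
      have h5 : (k : ℝ) / 2 + (-((k : ℂ) / 2 + 1)).re = -1 := by
        have h6 : (-((k : ℂ) / 2 + 1)).re = -((k : ℝ) / 2 + 1) := by
          rw [Complex.neg_re, Complex.add_re, Complex.one_re]
          congr 2
          have h7 : ((k : ℂ) / 2) = ((k / 2 : ℝ) : ℂ) := by push_cast; rfl
          rw [h7, Complex.ofReal_re]
        rw [h6]
        ring
      rw [h5, Real.rpow_neg_one] at h4
      have h6 : (Ideal.absNorm v.asIdeal : ℝ) = 1 := by
        rw [← inv_inv ((Ideal.absNorm v.asIdeal : ℝ)), h4, inv_one]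
      linarith
    · simp only [B, dif_neg hg, eval_one]
      exact one_ne_zero

/-- **The order of the L-function at the edge.** -/
theorem hasOrder_main (hΦ : ∀ i, IsTypeOver (Φ i)) (hX : IsProductOf h t eqs d) {m : ℕ}
    (hmd : m ≤ d) {N : ℕ} {B : HeightOneSpectrum (𝓞 K) → ℂ[X]}
    (hB : IsEulerSystem (K := K) (F := K) eqs d (2 * m) N B)
    {L : Type} [Field L] [NumberField L]
    (j : L →+* ℂ) (hj : ∀ i, ∀ ψ : E i →+* ℂ, ∃ φ : E i →+* L, j.comp φ = ψ) :
    HasOrder (2 * m) B (-(finrank ℚ (tateClasses h t (Fin m × Fin 2) m) : ℤ)) := by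
  classical
  have hm : Fintype.card (Fin m × Fin 2) = 2 * m := by
    rw [Fintype.card_prod, Fintype.card_fin, Fintype.card_fin, mul_comm]
  rw [finrank_tate j hj]
  have h1 : Nat.card {S : Ty E t (Fin m × Fin 2) // AE h t (en S) m} =
      Nat.card {S : Ty E t (Fin m × Fin 2) // IsTriv (psi h t (en S) m)} :=
    Nat.card_congr (Equiv.subtypeEquivRight fun S => (isTriv_iff hΦ hm (en S)).symm)
  rw [h1]
  refine hasOrder_prod (ι := Ty E t (Fin m × Fin 2)) (fun S => psi h t (en S) m)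
    (fun S => ⟨_, _, _, isHecke_psi hΦ hm⟩) B ?_ hB.2
  filter_upwards [euler_prod hX (by omega) hB] with v hv z
  rw [hv]
  let e : {S : Finset (XX E t ℂ) // S.card = 2 * m} ≃ Ty E t (Fin m × Fin 2) :=
    Equiv.subtypeEquivRight fun S => by rw [hm]
  refine Fintype.prod_equiv e _ _ fun S => ?_
  have h0 : v.asIdeal ≠ 0 := by rw [Ideal.zero_eq_bot]; exact v.ne_bot
  have h2 : psi h t (en (e S)) m v.asIdeal * (Ideal.absNorm v.asIdeal : ℂ) ^ (((2 * m : ℕ) : ℂ) / 2) =
      ∏ x ∈ S.1, mu h t v x := by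
    have h3 : (((2 * m : ℕ) : ℂ) / 2) = (m : ℂ) := by push_cast; ring
    rw [h3, Complex.cpow_natCast, psi_ne h0, mul_assoc,
      inv_mul_cancel₀ (pow_ne_zero _ (absNorm_ne h0)), mul_one]
    exact prod_en (e S) (fun x => mu h t v x)
  rw [h2]

end

end Run7.h365.CM.T
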