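import Pool.Agent.Run7.h365.CM.Frob
import Pool.Agent.H204R3.CM.Nondeg

/-!
# The Tate classes are Hodge classes
-/

set_option autoImplicit false
set_option linter.unusedSectionVars false

namespace Run7.h365.CM.T

open Module NumberField IsDedekindDomain Filter Topology Polynomial
open Pool.Agent.H204R3.CM

section

variable {K : Type} [Field K] [NumberField K]
variable {ι J : Type} [Fintype J] {E : ι → Type} [∀ i, Field (E i)] [∀ i, NumberField (E i)]
  {Φ : ∀ i, (K →+* ℂ) → Set (E i →+* ℂ)} {h : ∀ i, FrobSystem K (E i) (Φ i)} {t : J → ι}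
  {κ : Type} [Fintype κ] [DecidableEq κ] {m : ℕ}

/-- a real multilinear form from a complex one with real values on the rational homology -/
theorem real_values {T : Type} [AddCommGroup T] [Module ℝ T] (G : MultilinearMap ℝ (fun _ : κ => T) ℂ) :
    ∃ ψ : MultilinearMap ℝ (fun _ : κ => T) ℝ, ∀ u, ψ u = (G u).re :=
  ⟨Complex.reLm.compMultilinearMap G, fun _ => rfl⟩

/-- **The Tate classes are Hodge classes.** -/
theorem tate_hodge (hΦ : ∀ i, IsTypeOver (Φ i)) (hm : Fintype.card κ = 2 * m)
    {L : Type} [Field L] [NumberField L]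
    (j : L →+* ℂ) (hj : ∀ i, ∀ ψ : E i →+* ℂ, ∃ φ : E i →+* L, j.comp φ = ψ)
    {f : (∀ a, E (t a)) [⋀^κ]→ₗ[ℚ] ℚ} (hf : f ∈ tateClasses h t κ m) (σ : K →+* ℂ) :
    IsHodge (per (fun i => Φ i σ) t) f := by
  classical
  obtain ⟨c, hc⟩ := form_coeff' j hj f.toMultilinearMap
  have hcm : ∀ i, IsCMType (Φ i σ) := fun i => (hΦ i).cm σ
  let F := formOf t c
  let G : MultilinearMap ℝ (fun _ : κ => Tan (fun i => Φ i σ) t) ℂ :=
    (F.restrictScalars ℝ).compLinearMap (fun _ => theta t hcm)
  have hG : ∀ u : κ → Tan (fun i => Φ i σ) t, G u = F (fun l => theta t hcm (u l)) := fun u => rfl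
  obtain ⟨ψ, hψ⟩ := real_values G
  refine ⟨ψ, fun v => ?_, fun z hz u => ?_⟩
  · rw [hψ, hG]
    have h1 : (fun l => theta t hcm (per (fun i => Φ i σ) t (v l))) = fun l => chi E t ℂ (v l) :=
      funext fun l => theta_per t hcm (v l)
    rw [h1, formOf_apply, ← hc v]
    change (((f v : ℚ) : ℂ)).re = ((f v : ℚ) : ℝ)
    rw [← Complex.ofReal_ratCast, Complex.ofReal_re]
  · rw [hψ, hψ, hG, hG]
    congr 1
    rw [formOf_apply, formOf_apply]
    refine Finset.sum_congr rfl fun I _ => ?_
    by_cases hI : c I = 0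
    · rw [hI, zero_mul, zero_mul]
    · congr 1
      have h1 : ∀ l, theta t hcm (z • u l) (I l) =
          dz t (fun i => Φ i σ) z (I l) * theta t hcm (u l) (I l) := by
        intro l
        have h2 := congrFun (theta_smul t hcm z (u l)) (I l)
        exact h2
      rw [Finset.prod_congr rfl (fun l _ => h1 l), Finset.prod_mul_distrib]
      have h3 : cnt t I Φ σ = m :=
        cnt_eq hΦ hm ((isTriv_iff hΦ hm I).2 (coeff_AE hf hc hI)) σ
      have h4 : ∏ l, dz t (fun i => Φ i σ) z (I l) = z ^ m * (starRingEnd ℂ z) ^ m := by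
        unfold dz
        rw [Finset.prod_ite, Finset.prod_const, Finset.prod_const]
        have h5 : (Finset.univ.filter (fun l => (I l).2 ∈ Φ (t (I l).1) σ)).card = m := h3
        have h6 : (Finset.univ.filter (fun l => ¬ (I l).2 ∈ Φ (t (I l).1) σ)).card = m := by
          have h7 := Finset.card_filter_add_card_filter_not (s := (Finset.univ : Finset κ))
            (fun l => (I l).2 ∈ Φ (t (I l).1) σ)
          rw [Finset.card_univ, hm] at h7
          omega
        rw [h5, h6]
      rw [h4, ← mul_pow, Complex.mul_conj, Complex.normSq_eq_norm_sq, hz]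
      simp

end

end Run7.h365.CM.T
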