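import Pool.Agent.N134.HS.Nvq
import Pool.Agent.N172.HS.Nv
import Pool.Agent.Y773.AB.Res
import Pool.Agent.Y772.NZ.Zeta
import Pool.Agent.Y149.Ord

/-!
# The order at the edge of a finite product of L-functions of Hecke characters
-/

set_option autoImplicit false
set_option linter.unusedSectionVars false

namespace Run7.h365.CM

open NumberField Complex Filter Topology IsDedekindDomain Polynomial
open Pool.Agent.N172.HS (IsHecke nonvanishing)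
open Pool.Agent.N134.HS (t_nvq)
open Pool.Agent.Y773 (LI)
open Pool.Agent.Y773.AB (res res_cop res_not LI_res Ef Ef_ne Ef_diff hasProd_prime)
open Pool.Agent.Y772.NZ (one one_ne one_norm near_one)
open Pool.Agent.Y149.Ord (HasOrder)
open Pool.Agent.W353.EF (LFun)

variable {K : Type} [Field K] [NumberField K]

/-- the primes as ideals -/
def primeEquiv (K : Type) [Field K] [NumberField K] :
    HeightOneSpectrum (𝓞 K) ≃ {𝔭 : Ideal (𝓞 K) // Prime 𝔭} where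
  toFun v := ⟨v.asIdeal, v.prime⟩
  invFun 𝔭 := ⟨𝔭.1, Ideal.isPrime_of_prime 𝔭.2, 𝔭.2.ne_zero⟩
  left_inv _ := rfl
  right_inv _ := rfl

/-- `ψ` is trivial: equal to one at all the ideals where it is not zero -/
def IsTriv (ψ : Ideal (𝓞 K) →*₀ ℂ) : Prop := ∀ 𝔞, ψ 𝔞 ≠ 0 → ψ 𝔞 = 1

theorem tendsto_one_add : Tendsto (fun ε : ℝ => (1 : ℂ) + (ε : ℂ)) (𝓝[>] 0) (𝓝 (1 : ℂ)) := by
  have : Continuous (fun ε : ℝ => (1 : ℂ) + (ε : ℂ)) := by fun_prop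
  have h0 := this.tendsto 0
  simp only [Complex.ofReal_zero, add_zero] at h0
  exact h0.mono_left nhdsWithin_le_nhds

theorem re_one_add {ε : ℝ} (hε : 0 < ε) : 1 < ((1 : ℂ) + (ε : ℂ)).re := by
  rw [add_re, one_re, ofReal_re]; linarith

/-- a nontrivial character -/
theorem lim_nontriv {𝔣 : Ideal (𝓞 K)} {k : (K →+* ℂ) → ℤ} {t : (K →+* ℂ) → ℝ}
    {ψ : Ideal (𝓞 K) →*₀ ℂ} (h : IsHecke 𝔣 k t ψ) (h1 : ¬ IsTriv ψ) :
    ∃ c : ℂ, c ≠ 0 ∧ Tendsto (fun ε : ℝ => LI ψ (1 + (ε : ℂ))) (𝓝[>] 0) (𝓝 c) := by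
  have h2 : ∃ 𝔠, ψ 𝔠 ≠ 0 ∧ ψ 𝔠 ≠ 1 := by
    unfold IsTriv at h1
    push Not at h1
    exact h1
  obtain ⟨G, hG, hG1, hGL⟩ := nonvanishing t_nvq h h2
  refine ⟨G 1, hG1, ?_⟩
  have h3 := hG.continuousAt.tendsto.comp tendsto_one_add
  refine h3.congr' ?_
  filter_upwards [self_mem_nhdsWithin] with ε hε
  exact hGL _ (re_one_add hε)

theorem lim_one (K : Type) [Field K] [NumberField K] :
    ∃ c : ℂ, c ≠ 0 ∧ Tendsto (fun ε : ℝ => (ε : ℂ) * LI (one K) (1 + (ε : ℂ))) (𝓝[>] 0) (𝓝 c) := by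
  obtain ⟨g, hg, hg1, hgz⟩ := near_one K
  refine ⟨g 1, hg1, ?_⟩
  have h3 := hg.continuousAt.tendsto.comp tendsto_one_add
  refine h3.congr' ?_
  filter_upwards [self_mem_nhdsWithin, tendsto_one_add.eventually hgz] with ε hε h4
  have hε' : (0 : ℝ) < ε := hε
  have hne : (ε : ℂ) ≠ 0 := by exact_mod_cast hε'.ne'
  rw [h4 (re_one_add hε), Function.comp_apply, add_sub_cancel_left]
  field_simp

/-- a trivial character -/
theorem lim_triv {𝔣 : Ideal (𝓞 K)} {k : (K →+* ℂ) → ℤ} {t : (K →+* ℂ) → ℝ}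
    {ψ : Ideal (𝓞 K) →*₀ ℂ} (h : IsHecke 𝔣 k t ψ) (h1 : IsTriv ψ) :
    ∃ c : ℂ, c ≠ 0 ∧ Tendsto (fun ε : ℝ => (ε : ℂ) * LI ψ (1 + (ε : ℂ))) (𝓝[>] 0) (𝓝 c) := by
  obtain ⟨c, hc, hlim⟩ := lim_one K
  by_cases htop : 𝔣 = ⊤
  · refine ⟨c, hc, ?_⟩
    have h2 : ψ = one K := by
      ext 𝔞
      by_cases h0 : 𝔞 = 0
      · rw [h0, map_zero, map_zero]
      · rw [one_ne K h0]
        have h3 : 𝔞 ≠ ⊥ := by rwa [← Ideal.zero_eq_bot]
        refine h1 _ ((h.supp 𝔞 h3).2 ?_)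
        rw [htop, Ideal.isCoprime_iff_sup_eq]
        exact sup_top_eq 𝔞
    rw [h2]
    exact hlim
  · have h2 : ψ = res 𝔣 htop (one K) := by
      ext 𝔞
      by_cases h0 : 𝔞 = 0
      · rw [h0, map_zero, map_zero]
      · have h0' : 𝔞 ≠ ⊥ := by rwa [← Ideal.zero_eq_bot]
        by_cases h3 : IsCoprime 𝔞 𝔣
        · rw [res_cop htop _ h3, one_ne K h0]
          exact h1 _ ((h.supp 𝔞 h0').2 h3)
        · rw [res_not htop _ h3]
          by_contra h4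
          exact h3 ((h.supp 𝔞 h0').1 h4)
    refine ⟨c * Ef 𝔣 (one K) 1, mul_ne_zero hc (Ef_ne h.ne_bot (one_norm K) (by simp)), ?_⟩
    have h3 := (Ef_diff h.ne_bot (one K)).continuous.continuousAt.tendsto.comp tendsto_one_add
    refine (hlim.mul h3).congr' ?_
    filter_upwards [self_mem_nhdsWithin] with ε hε
    rw [h2, LI_res h.ne_bot htop (one_norm K) (re_one_add hε), Function.comp_apply]
    ring

/-- the Euler product over the primes -/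
theorem hasProd_v {ψ : Ideal (𝓞 K) →*₀ ℂ} (hψ : ∀ 𝔞, ‖ψ 𝔞‖ ≤ 1) {s : ℂ} (hs : 1 < s.re) :
    HasProd (fun v : HeightOneSpectrum (𝓞 K) =>
      (1 - ψ v.asIdeal * ((Ideal.absNorm v.asIdeal : ℕ) : ℂ) ^ (-s))⁻¹) (LI ψ s) :=
  (primeEquiv K).hasProd_iff.2 (hasProd_prime hψ hs)

theorem norm_v_pos (v : HeightOneSpectrum (𝓞 K)) : 2 ≤ Ideal.absNorm v.asIdeal :=
  Pool.Agent.Y773.AB.norm_prime_ge v.prime

/-- **The order at the edge of a finite product of L-functions of Hecke characters.** -/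
theorem hasOrder_prod {ι : Type} [Fintype ι] (ψ : ι → Ideal (𝓞 K) →*₀ ℂ)
    (hψ : ∀ j, ∃ (𝔣 : Ideal (𝓞 K)) (k : (K →+* ℂ) → ℤ) (t : (K →+* ℂ) → ℝ), IsHecke 𝔣 k t (ψ j))
    {i : ℕ} (B : HeightOneSpectrum (𝓞 K) → ℂ[X])
    (hB : ∀ᶠ v in cofinite, ∀ z : ℂ, (B v).eval z =
      ∏ j, (1 - ψ j v.asIdeal * (Ideal.absNorm v.asIdeal : ℂ) ^ ((i : ℂ) / 2) * z))
    (hB0 : ∀ v, (B v).eval ((Ideal.absNorm v.asIdeal : ℂ) ^ (-((i : ℂ) / 2 + 1))) ≠ 0) :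
    HasOrder i B (-(Nat.card {j // IsTriv (ψ j)} : ℤ)) := by
  classical
  have hn : ∀ j 𝔞, ‖ψ j 𝔞‖ ≤ 1 := by
    intro j 𝔞
    obtain ⟨𝔣, k, t, h⟩ := hψ j
    exact h.norm_le 𝔞
  rw [Filter.eventually_cofinite] at hB
  set S : Finset (HeightOneSpectrum (𝓞 K)) := hB.toFinset with hS
  have hgood : ∀ v ∉ S, ∀ z : ℂ, (B v).eval z =
      ∏ j, (1 - ψ j v.asIdeal * (Ideal.absNorm v.asIdeal : ℂ) ^ ((i : ℂ) / 2) * z) := by
    intro v hv
    rw [hS, Set.Finite.mem_toFinset, Set.mem_ofPred_eq, not_not] at hv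
    exact hv
  -- the correction factor
  let hh : HeightOneSpectrum (𝓞 K) → ℝ → ℂ := fun v ε =>
    (∏ j, (1 - ψ j v.asIdeal * ((Ideal.absNorm v.asIdeal : ℕ) : ℂ) ^ (-((1 : ℂ) + ε)))) *
      ((B v).eval ((Ideal.absNorm v.asIdeal : ℂ) ^ (-((i : ℂ) / 2 + 1 + ε))))⁻¹
  have hqne : ∀ v : HeightOneSpectrum (𝓞 K), ((Ideal.absNorm v.asIdeal : ℕ) : ℂ) ≠ 0 := by
    intro v
    have := norm_v_pos v
    exact_mod_cast (by omega : Ideal.absNorm v.asIdeal ≠ 0)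
  have hfac : ∀ (v : HeightOneSpectrum (𝓞 K)) (ε : ℝ), 0 < ε → ∀ j,
      1 - ψ j v.asIdeal * ((Ideal.absNorm v.asIdeal : ℕ) : ℂ) ^ (-((1 : ℂ) + ε)) ≠ 0 := by
    intro v ε hε j h0
    have h1 := Pool.Agent.Y773.AB.fac_ne (hn j) v.prime (s := (1 : ℂ) + ε)
      (lt_trans zero_lt_one (re_one_add hε))
    rw [← sub_eq_zero.mp h0, norm_one] at h1
    exact lt_irrefl _ h1
  have hfac1 : ∀ (v : HeightOneSpectrum (𝓞 K)), ∀ j,
      1 - ψ j v.asIdeal * ((Ideal.absNorm v.asIdeal : ℕ) : ℂ) ^ (-(1 : ℂ)) ≠ 0 := by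
    intro v j h0
    have h1 := Pool.Agent.Y773.AB.fac_ne (hn j) v.prime (s := (1 : ℂ)) (by simp)
    rw [← sub_eq_zero.mp h0, norm_one] at h1
    exact lt_irrefl _ h1
  have hh1 : ∀ v ∉ S, ∀ ε : ℝ, 0 < ε → hh v ε = 1 := by
    intro v hv ε hε
    change _ * _ = _
    rw [hgood v hv]
    have h1 : ∀ j, ψ j v.asIdeal * (Ideal.absNorm v.asIdeal : ℂ) ^ ((i : ℂ) / 2) *
        (Ideal.absNorm v.asIdeal : ℂ) ^ (-((i : ℂ) / 2 + 1 + ε)) =
        ψ j v.asIdeal * ((Ideal.absNorm v.asIdeal : ℕ) : ℂ) ^ (-((1 : ℂ) + ε)) := by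
      intro j
      rw [mul_assoc, ← Complex.cpow_add _ _ (hqne v)]
      congr 2
      ring
    simp only [h1]
    exact mul_inv_cancel₀ (Finset.prod_ne_zero_iff.2 fun j _ => hfac v ε hε j)
  -- the product formula
  have hprod : ∀ ε : ℝ, 0 < ε → LFun B ((i : ℂ) / 2 + 1 + ε) =
      (∏ j, LI (ψ j) (1 + (ε : ℂ))) * ∏ v ∈ S, hh v ε := by
    intro ε hε
    have h1 : HasProd (fun v : HeightOneSpectrum (𝓞 K) => ∏ j,
        (1 - ψ j v.asIdeal * ((Ideal.absNorm v.asIdeal : ℕ) : ℂ) ^ (-((1 : ℂ) + ε)))⁻¹)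
        (∏ j, LI (ψ j) (1 + (ε : ℂ))) :=
      hasProd_prod fun j _ => hasProd_v (hn j) (re_one_add hε)
    have h2 : HasProd (fun v => hh v ε) (∏ v ∈ S, hh v ε) :=
      hasProd_prod_of_ne_finset_one (fun v hv => hh1 v hv ε hε)
    have h3 := h1.mul h2
    unfold LFun
    refine HasProd.tprod_eq (h3.congr_fun fun v => ?_)
    change _ = _ * (_ * _)
    rw [← mul_assoc, Finset.prod_inv_distrib,
      inv_mul_cancel₀ (Finset.prod_ne_zero_iff.2 fun j _ => hfac v ε hε j), one_mul]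
  -- the limits
  have hlimh : ∀ v, ∃ c : ℂ, c ≠ 0 ∧ Tendsto (fun ε : ℝ => hh v ε) (𝓝[>] 0) (𝓝 c) := by
    intro v
    refine ⟨(∏ j, (1 - ψ j v.asIdeal * ((Ideal.absNorm v.asIdeal : ℕ) : ℂ) ^ (-(1 : ℂ)))) *
      ((B v).eval ((Ideal.absNorm v.asIdeal : ℂ) ^ (-((i : ℂ) / 2 + 1))))⁻¹,
      mul_ne_zero (Finset.prod_ne_zero_iff.2 fun j _ => hfac1 v j) (inv_ne_zero (hB0 v)), ?_⟩
    have hc1 : Continuous fun z : ℂ => ((Ideal.absNorm v.asIdeal : ℕ) : ℂ) ^ z :=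
      haveI : NeZero ((Ideal.absNorm v.asIdeal : ℕ) : ℂ) := ⟨hqne v⟩
      continuous_const_cpow _
    have ht : Tendsto (fun ε : ℝ => (ε : ℂ)) (𝓝[>] 0) (𝓝 (0 : ℂ)) := by
      have h0 := Complex.continuous_ofReal.tendsto (0 : ℝ)
      rw [ofReal_zero] at h0
      exact h0.mono_left nhdsWithin_le_nhds
    have h1 : ContinuousAt (fun z : ℂ => (∏ j, (1 - ψ j v.asIdeal *
        ((Ideal.absNorm v.asIdeal : ℕ) : ℂ) ^ (-((1 : ℂ) + z)))) *
        ((B v).eval ((Ideal.absNorm v.asIdeal : ℂ) ^ (-((i : ℂ) / 2 + 1 + z))))⁻¹) 0 := by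
      refine ContinuousAt.mul ?_ (ContinuousAt.inv₀ ?_ ?_)
      · apply Continuous.continuousAt
        refine continuous_finsetProd _ fun j _ => ?_
        exact continuous_const.sub (continuous_const.mul (hc1.comp (by fun_prop)))
      · apply Continuous.continuousAt
        exact (B v).continuous.comp (hc1.comp (by fun_prop))
      · rw [add_zero]
        exact hB0 v
    have h2 := h1.tendsto.comp ht
    simp only [add_zero] at h2
    exact h2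
  choose ch hch1 hch2 using hlimh
  have hlimj : ∀ j, ∃ c : ℂ, c ≠ 0 ∧ Tendsto (fun ε : ℝ =>
      (if IsTriv (ψ j) then (ε : ℂ) else 1) * LI (ψ j) (1 + (ε : ℂ))) (𝓝[>] 0) (𝓝 c) := by
    intro j
    obtain ⟨𝔣, k, t, h⟩ := hψ j
    by_cases h1 : IsTriv (ψ j)
    · simp only [if_pos h1]
      exact lim_triv h h1
    · simp only [if_neg h1, one_mul]
      exact lim_nontriv h h1
  choose cj hcj1 hcj2 using hlimj
  refine ⟨(∏ j, cj j) * ∏ v ∈ S, ch v, mul_ne_zero (Finset.prod_ne_zero_iff.2 fun j _ => hcj1 j)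
    (Finset.prod_ne_zero_iff.2 fun v _ => hch1 v), ?_⟩
  have h1 := (tendsto_finsetProd Finset.univ fun j _ => hcj2 j).mul
    (tendsto_finsetProd S fun v _ => hch2 v)
  refine h1.congr' ?_
  filter_upwards [self_mem_nhdsWithin] with ε hε
  rw [hprod ε hε, Finset.prod_mul_distrib, Finset.prod_ite, Finset.prod_const_one, mul_one,
    Finset.prod_const, neg_neg, zpow_natCast, Nat.card_eq_fintype_card, Fintype.card_subtype]
  ring

end Run7.h365.CM
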