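import Pool.Agent.Run7.h365.CM.Hodge

/-!
# The pole of the L-function and the Tate classes
-/

set_option autoImplicit false
set_option linter.unusedSectionVars false

namespace Run7.h365.CM

open Module NumberField IsDedekindDomain Filter Topology Polynomial
open Pool.Agent.H204R3.CM
open Pool.Agent.W353.EF (IsEulerSystem)
open Pool.Agent.Y149.Ord (HasOrder)

section

variable {K : Type} [Field K] [NumberField K] {σ₀ : K →+* ℂ} {J : Type} [Fintype J]
  {E : J → Type} [∀ a, Field (E a)] [∀ a, NumberField (E a)] {Φ₀ : ∀ a, Set (E a →+* ℂ)}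
  {A : ∀ a, CMOver K σ₀ (E a) (Φ₀ a)}

theorem tateClasses_eq (A : ∀ a, CMOver K σ₀ (E a) (Φ₀ a)) (κ : Type) (m : ℕ) :
    tateClasses A κ m = T.tateClasses (fun a => (A a).frob) id κ m := by
  apply le_antisymm
  · rw [tateClasses, Submodule.span_le]
    intro f hf
    exact hf
  · intro f hf
    exact Submodule.subset_span hf

/-- The Tate classes form a space. -/
theorem mem_tateClasses {κ : Type} {m : ℕ} {f : (∀ a, E a) [⋀^κ]→ₗ[ℚ] ℚ} :
    f ∈ tateClasses A κ m ↔ IsTateClass A m f := by
  rw [tateClasses_eq]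
  exact Iff.rfl

theorem isProductOf_iff {n : ℕ} {eqs : Set (MvPolynomial (Fin n) (𝓞 K))} {d : ℕ}
    (hX : IsProductOf A eqs d) : T.IsProductOf (fun a => (A a).frob) id eqs d :=
  ⟨hX.dim, hX.count⟩

/-- **The order of the pole is the dimension of the space of the Tate classes, and these are Hodge
classes.** -/
theorem poleIsTateRank {n : ℕ} {eqs : Set (MvPolynomial (Fin n) (𝓞 K))} {d : ℕ}
    (hX : IsProductOf A eqs d) : PoleIsTateRank A eqs d := by
  obtain ⟨L, _, _, j, hj⟩ := exists_galois E
  have hΦ : ∀ a, IsTypeOver (A a).Φ := fun a => (A a).isType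
  refine ⟨fun m f hf σ => ?_, fun m hm => ⟨⟨_, T.exists_euler (isProductOf_iff hX) _⟩,
    fun N B hB => ?_⟩⟩
  · rw [← mem_tateClasses, tateClasses_eq] at hf
    exact T.tate_hodge hΦ (by
      rw [Fintype.card_prod, Fintype.card_fin, Fintype.card_fin, mul_comm]) j hj hf σ
  · have h1 := T.hasOrder_main hΦ (isProductOf_iff hX) hm hB j hj
    rw [tateRank, tateClasses_eq]
    exact h1

end

section

variable {W T : Type} [AddCommGroup W] [Module ℚ W] [AddCommGroup T] [Module ℂ T]

/-- The value of the wedge product `B 0 ∧ ... ∧ B (m - 1)` of forms of degree two. -/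
def wedge {m : ℕ} (B : Fin m → W [⋀^Fin 2]→ₗ[ℚ] ℚ) (v : Fin m × Fin 2 → W) : ℚ :=
  ∑ σ : Equiv.Perm (Fin m × Fin 2),
    (Equiv.Perm.sign σ : ℤ) * ∏ l, B l ![v (σ (l, 0)), v (σ (l, 1))]

/-- The wedge products of `m` Hodge classes of degree two. -/
def wedges (per : W →+ T) (m : ℕ) : Set (W [⋀^Fin m × Fin 2]→ₗ[ℚ] ℚ) :=
  {g | ∃ B : Fin m → W [⋀^Fin 2]→ₗ[ℚ] ℚ, (∀ l, IsHodge per (B l)) ∧ ∀ v, g v = wedge B v}

/-- The class `f` is a linear combination of wedge products of `m` Hodge classes of degree two. -/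
def IsDivisorial (per : W →+ T) (m : ℕ) (f : W [⋀^Fin m × Fin 2]→ₗ[ℚ] ℚ) : Prop :=
  f ∈ Submodule.span ℚ (wedges per m)

end

/-- All Tate classes of degree `2 m` are linear combinations of wedge products of `m` Hodge classes of
degree two. -/
def DivisorialTate {K : Type} [Field K] [NumberField K] {σ₀ : K →+* ℂ} {ι J : Type} [Fintype J]
    {E : ι → Type} [∀ i, Field (E i)] [∀ i, NumberField (E i)] {Φ₀ : ∀ i, Set (E i →+* ℂ)}
    {t : J → ι} (A : ∀ a, CMOver K σ₀ (E (t a)) (Φ₀ (t a))) (m : ℕ) : Prop :=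
  ∀ f, IsTateClass A m f → IsDivisorial (per Φ₀ t) m f

/-- **Tate's pole conjecture for the abelian varieties of the CM types `Φ₀ i` of the fields `E i`,
over the number field `K`** with an embedding `σ₀` in the field of complex numbers. Let `A a`,
`a : J`, be finitely many abelian varieties over `K` with complex multiplication by `E (t a)` over `K`,
of the types `Φ₀ (t a)` for `σ₀`. (Some of them may be equal, and some may be twists of others, which
are isomorphic only over extensions of `K`.) Let `X` be a projective variety over `K` which is isogenous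
over `K` to the product of the `A a`. Then for all `m ≤ dim X` the order of the pole of `L(H^{2m}(X), s)`
at `s = m + 1` is the dimension of the space of the Tate classes of degree `2 m`, and all these classes
are Hodge classes and linear combinations of wedge products of `m` Hodge classes of degree two
(these are classes of divisors, by the theorem of Lefschetz). -/
def PoleOver {K : Type} [Field K] [NumberField K] (σ₀ : K →+* ℂ) {ι : Type} (E : ι → Type)
    [∀ i, Field (E i)] [∀ i, NumberField (E i)] (Φ₀ : ∀ i, Set (E i →+* ℂ)) : Prop :=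
  ∀ (J : Type) [Fintype J] (t : J → ι) (A : ∀ a, CMOver K σ₀ (E (t a)) (Φ₀ (t a))) (n : ℕ)
    (eqs : Set (MvPolynomial (Fin n) (𝓞 K))) (d : ℕ), IsProductOf A eqs d →
      PoleIsTateRank A eqs d ∧ ∀ m, DivisorialTate A m

/-- Tate's pole conjecture for the abelian varieties of the CM types `Φ₀ i` of the fields `E i`, over all
number fields. -/
def PoleForTypes {ι : Type} (E : ι → Type) [∀ i, Field (E i)] [∀ i, NumberField (E i)]
    (Φ₀ : ∀ i, Set (E i →+* ℂ)) : Prop :=
  ∀ (K : Type) [Field K] [NumberField K] (σ₀ : K →+* ℂ), PoleOver σ₀ E Φ₀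

theorem poleForTypes_of_nondeg {ι : Type} [Fintype ι] {E : ι → Type} [∀ i, Field (E i)]
    [∀ i, NumberField (E i)] [∀ i, IsCMField (E i)] {L : Type} [Field L] [NumberField L]
    [IsGalois ℚ L] (j : L →+* ℂ) (hj : ∀ i, ∀ ψ : E i →+* ℂ, ∃ φ : E i →+* L, j.comp φ = ψ)
    {Φ₀ : ∀ i, Set (E i →+* ℂ)} (hcm : ∀ i, IsCMType (Φ₀ i)) (hnd : Nondeg Φ₀ j) :
    PoleForTypes E Φ₀ := by
  intro K _ _ σ₀ J _ t A n eqs d hX
  refine ⟨poleIsTateRank hX, fun m f hf => ?_⟩
  rw [← mem_tateClasses, tateClasses_eq] at hf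
  have h1 := T.tate_hodge (h := fun a => (A a).frob) (t := id) (fun a => (A a).isType) (by
      rw [Fintype.card_prod, Fintype.card_fin, Fintype.card_fin, mul_comm]) j
      (fun a => hj (t a)) hf σ₀
  have h2 : (fun a : J => (A a).Φ σ₀) = fun a : J => Φ₀ (t a) := funext fun a => (A a).eq_type
  rw [h2] at h1
  exact hodge_of_nondeg hcm t j hj hnd f h1

end Run7.h365.CM
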